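import Mathlib
import Pool.Agent.K9h5.T.Twc

/-!
# The curve of the tuples of roots for coefficients permuted by the Frobenius
-/

set_option autoImplicit false
set_option linter.all false

namespace Pool.Agent.K9h5.U

open Polynomial Finset Pool.Agent.K9h5 Pool.Agent.K9h5.T Pool.Agent.H901R3.MS

section

variable {m n : ℕ}

/-- the values of the linear form -/
noncomputable def vl {L : Type} [Field L] (e : Fin m → ℕ) (lam : ∀ i, Fin (e i) → L)
    (w : Fin m → Fin n → L) (y : L) (s : IX n e) : L := y + ∑ i, ∑ j, lam i j * w i (s i j)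

/-- the action of the permutations of the places on the tuples -/
def actP (e : Fin m → ℕ) (σ : ∀ i, Equiv.Perm (Fin (e i))) : IX n e ≃ IX n e where
  toFun s := fun i => (σ i).symm.toEmbedding.trans (s i)
  invFun s := fun i => (σ i).toEmbedding.trans (s i)
  left_inv s := by
    funext i
    ext j
    simp
  right_inv s := by
    funext i
    ext j
    simp

theorem vl_perm {L : Type} [Field L] (e : Fin m → ℕ) (σ : ∀ i, Equiv.Perm (Fin (e i)))
    (lam : ∀ i, Fin (e i) → L) (w : Fin m → Fin n → L) (y : L) (s : IX n e) :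
    vl e (fun i j => lam i (σ i j)) w y s = vl e lam w y (actP e σ s) := by
  unfold vl
  congr 1
  refine sum_congr rfl fun i _ => ?_
  refine Fintype.sum_equiv (σ i) _ _ fun j => ?_
  have h1 : (actP e σ s) i (σ i j) = s i j := by
    show s i ((σ i).symm (σ i j)) = s i j
    rw [Equiv.symm_apply_apply]
  rw [h1]

theorem vl_map {L L' : Type} [Field L] [Field L'] (f : L →+* L') (e : Fin m → ℕ)
    (lam : ∀ i, Fin (e i) → L) (w : Fin m → Fin n → L) (y : L) (s : IX n e) :
    f (vl e lam w y s) = vl e (fun i j => f (lam i j)) (fun i j => f (w i j)) (f y) s := by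
  unfold vl
  rw [map_add, map_sum]
  congr 1
  refine Finset.sum_congr rfl fun i _ => ?_
  rw [map_sum]
  refine Finset.sum_congr rfl fun j _ => ?_
  rw [map_mul]

end

section

variable {K : Type} [Field K] (a b : K) {m n : ℕ}

theorem th_factL (e : Fin m → ℕ) (lam : ∀ i, Fin (e i) → K)
    (c : Fin m → Fin n → QA K a b) (w : Fin m → Fin n → Om a b)
    (hw : ∀ i, pol (fun k => jO a b (c i k)) = ∏ j, (X - C (w i j)))
    (α : Om a b ≃+* Om a b)
    (hα : ∀ z : QA K a b, α (jO a b z) = evQ (cO a b) a b (xO a b) (-yO a b) (eqn_O' a b) z) :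
    (Th a b m e lam 1 c).map (kO a b) = ∏ u : IX n e ⊕ IX n e,
      (X - C (Sum.elim (vl e (fun i j => cO a b (lam i j)) w (yO a b))
        (vl e (fun i j => cO a b (lam i j)) (fun i j => α (w i j)) (-yO a b)) u)) := by
  rw [th_fact a b e lam 1 c w hw α hα]
  refine Finset.prod_congr rfl fun u _ => ?_
  have h1 : ∀ (w : Fin m → Fin n → Om a b) (y : Om a b) (s : IX n e),
      thv a b e lam 1 w y s = vl e (fun i j => cO a b (lam i j)) w y s := by
    intro w y s
    unfold thv vl
    rw [map_one, one_mul]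
  rcases u with s | s
  · rw [Sum.elim_inl, Sum.elim_inl, h1]
  · rw [Sum.elim_inr, Sum.elim_inr, h1]

/-- the curve is monic -/
theorem Th_monicL (e : Fin m → ℕ) (lam : ∀ i, Fin (e i) → K) (c : Fin m → Fin n → QA K a b) :
    (Th a b m e lam 1 c).Monic ∧ (Th a b m e lam 1 c).natDegree = 2 * Fintype.card (IX n e) := by
  obtain ⟨α, hα⟩ := exists_alpha a b
  choose w hw using fun i => exists_roots (pol (fun k => jO a b (c i k))) (pol_monic _)
    (pol_natDegree _)
  have h2 := th_factL a b e lam c w hw α hα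
  constructor
  · apply (kO_inj a b).monic_map_iff.2
    rw [h2]
    exact monic_prod_of_monic _ _ fun s _ => monic_X_sub_C _
  · rw [← natDegree_map_eq_of_injective (kO_inj a b), h2, natDegree_finset_prod_X_sub_C_eq_card]
    rw [card_univ, Fintype.card_sum, two_mul]

/-- the curve depends only on the orbit of the coefficients -/
theorem Th_symm (e : Fin m → ℕ) (σ : ∀ i, Equiv.Perm (Fin (e i))) (lam : ∀ i, Fin (e i) → K)
    (c : Fin m → Fin n → QA K a b) :
    Th a b m e (fun i j => lam i (σ i j)) 1 c = Th a b m e lam 1 c := by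
  obtain ⟨α, hα⟩ := exists_alpha a b
  choose w hw using fun i => exists_roots (pol (fun k => jO a b (c i k))) (pol_monic _)
    (pol_natDegree _)
  apply Polynomial.map_injective _ (kO_inj a b)
  rw [th_factL a b e _ c w hw α hα, th_factL a b e lam c w hw α hα]
  refine Fintype.prod_equiv (Equiv.sumCongr (actP e σ) (actP e σ)) _ _ fun u => ?_
  rcases u with s | s
  · rw [Sum.elim_inl, Equiv.sumCongr_apply, Sum.map_inl, Sum.elim_inl,
      vl_perm e σ (fun i j => cO a b (lam i j))]
  · rw [Sum.elim_inr, Equiv.sumCongr_apply, Sum.map_inr, Sum.elim_inr,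
      vl_perm e σ (fun i j => cO a b (lam i j))]

end

section descent

variable {F : Type} [Field F] [Fintype F] {K : Type} [Field K] [Algebra F K]

/-- polynomials fixed by the Frobenius -/
theorem desc1 (p : K[X]) (hp : ∀ i, (p.coeff i) ^ Fintype.card F = p.coeff i) :
    ∃ g : F[X], g.map (algebraMap F K) = p := by
  have h1 : p ∈ lifts (algebraMap F K) := by
    rw [lifts_iff_coeff_lifts]
    intro i
    obtain ⟨u, hu⟩ := (pow_card_iff (p.coeff i)).1 (hp i)
    exact ⟨u, hu⟩
  obtain ⟨g, hg⟩ := (mem_lifts _).1 h1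
  exact ⟨g, hg⟩

theorem desc2 (p : K[X][X]) (hp : ∀ i k, ((p.coeff i).coeff k) ^ Fintype.card F = (p.coeff i).coeff k) :
    ∃ g : F[X][X], g.map (mapRingHom (algebraMap F K)) = p := by
  have h1 : p ∈ lifts (mapRingHom (algebraMap F K)) := by
    rw [lifts_iff_coeff_lifts]
    intro i
    obtain ⟨u, hu⟩ := desc1 (F := F) (p.coeff i) (hp i)
    exact ⟨u, by rw [coe_mapRingHom]; exact hu⟩
  obtain ⟨g, hg⟩ := (mem_lifts _).1 h1
  exact ⟨g, hg⟩

end descent

section lam

variable {m n : ℕ}

/-- the coefficients permuted by the Frobenius -/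
noncomputable def lams {S : Type} [CommRing S] (q D : ℕ) (e : Fin m → ℕ)
    (σ : ∀ i, Equiv.Perm (Fin (e i))) (t : S) : ∀ i, Fin (e i) → S := fun i j =>
  ∑ k ∈ range D, (t ^ idx e ⟨i, ((σ i)⁻¹ ^ k) j⟩) ^ q ^ k

theorem lams_map {S T : Type} [CommRing S] [CommRing T] (φ : S →+* T) (q D : ℕ) (e : Fin m → ℕ)
    (σ : ∀ i, Equiv.Perm (Fin (e i))) (t : S) :
    (fun i j => φ (lams q D e σ t i j)) = lams q D e σ (φ t) := by
  funext i j
  unfold lams
  rw [map_sum]
  refine sum_congr rfl fun k _ => ?_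
  rw [map_pow, map_pow]

theorem lams_frob {K : Type} [Field K] (φ : K →+* K) (q : ℕ) (hφ : ∀ z, φ z = z ^ q) (D : ℕ)
    (e : Fin m → ℕ) (σ : ∀ i, Equiv.Perm (Fin (e i))) (hσ : ∀ i, σ i ^ D = 1) (t : K)
    (ht : t ^ q ^ D = t) (i : Fin m) (j : Fin (e i)) :
    (lams q D e σ t i j) ^ q = lams q D e σ t i (σ i j) := by
  rw [← hφ]
  unfold lams
  rw [map_sum]
  set A : ℕ → K := fun k => (t ^ idx e ⟨i, ((σ i)⁻¹ ^ k) (σ i j)⟩) ^ q ^ k with hA
  have h1 : ∀ k ∈ range D, φ ((t ^ idx e ⟨i, ((σ i)⁻¹ ^ k) j⟩) ^ q ^ k) = A (k + 1) := by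
    intro k _
    rw [hφ, hA]
    simp only
    rw [← pow_mul (t ^ idx e ⟨i, ((σ i)⁻¹ ^ k) j⟩), ← pow_succ]
    congr 4
    rw [pow_succ, Equiv.Perm.mul_apply]
    congr 1
    exact (Equiv.symm_apply_apply (σ i) j).symm
  rw [sum_congr rfl h1]
  have h2 := sum_range_succ' A D
  rw [sum_range_succ] at h2
  have h3 : A D = A 0 := by
    rw [hA]
    simp only
    rw [inv_pow, hσ, inv_one, pow_zero, pow_zero, pow_one, ← pow_mul, mul_comm, pow_mul, ht]
  rw [h3] at h2
  exact (add_right_cancel h2).symm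

/-- the values as polynomials in `t` -/
noncomputable def vS {L : Type} [Field L] (q D : ℕ) (e : Fin m → ℕ)
    (σ : ∀ i, Equiv.Perm (Fin (e i))) (w : Fin m → Fin n → L) (y : L)
    (s : IX n e) : L[X] := C y + ∑ v : Σ i, Fin (e i), C (w v.1 (s v.1 v.2)) *
      ∑ k ∈ range D, X ^ (idx e ⟨v.1, ((σ v.1)⁻¹ ^ k) v.2⟩ * q ^ k)

theorem vS_eval {L : Type} [Field L] (q D : ℕ) (e : Fin m → ℕ)
    (σ : ∀ i, Equiv.Perm (Fin (e i))) (w : Fin m → Fin n → L) (y t : L)
    (s : IX n e) : (vS q D e σ w y s).eval t = vl e (lams q D e σ t) w y s := by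
  unfold vS vl lams
  rw [eval_add, eval_C, eval_finset_sum, Fintype.sum_sigma]
  congr 1
  refine Finset.sum_congr rfl fun i _ => Finset.sum_congr rfl fun j _ => ?_
  rw [eval_mul, eval_C, eval_finset_sum, mul_comm]
  congr 1
  refine sum_congr rfl fun k _ => ?_
  rw [eval_pow, eval_X, pow_mul]

theorem vS_coeff {L : Type} [Field L] (q D : ℕ) (hD : 1 ≤ D) (e : Fin m → ℕ)
    (hq : Fintype.card (Σ i, Fin (e i)) < q)
    (σ : ∀ i, Equiv.Perm (Fin (e i))) (w : Fin m → Fin n → L) (y : L)
    (s : IX n e) (v : Σ i, Fin (e i)) : (vS q D e σ w y s).coeff (idx e v) = w v.1 (s v.1 v.2) := by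
  unfold vS
  have hq0 : 0 < q := by omega
  have h1 : ∀ v' : Σ i, Fin (e i), ∀ k, 1 ≤ k →
      idx e v ≠ idx e ⟨v'.1, ((σ v'.1)⁻¹ ^ k) v'.2⟩ * q ^ k := by
    intro v' k hk h
    have h2 := idx_le e v
    have h3 := idx_pos e ⟨v'.1, ((σ v'.1)⁻¹ ^ k) v'.2⟩
    have h4 : q ≤ q ^ k := Nat.le_self_pow (by omega) q
    have h5 : q ^ k ≤ idx e ⟨v'.1, ((σ v'.1)⁻¹ ^ k) v'.2⟩ * q ^ k := Nat.le_mul_of_pos_left _ h3
    omega
  have h2 : ∀ v' : Σ i, Fin (e i), (∑ k ∈ range D,
      (X : L[X]) ^ (idx e ⟨v'.1, ((σ v'.1)⁻¹ ^ k) v'.2⟩ * q ^ k)).coeff (idx e v) =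
      if v' = v then 1 else 0 := by
    intro v'
    rw [finset_sum_coeff, sum_eq_single 0]
    · rw [coeff_X_pow, pow_zero, pow_zero, mul_one, Equiv.Perm.one_apply]
      by_cases hv : v' = v
      · rw [if_pos hv, if_pos (by rw [hv])]
      · rw [if_neg hv, if_neg]
        intro h
        exact hv (idx_inj e h.symm)
    · intro k _ hk
      rw [coeff_X_pow, if_neg (h1 v' k (Nat.one_le_iff_ne_zero.2 hk))]
    · intro h
      exact absurd (mem_range.2 (by omega)) h
  rw [coeff_add, coeff_C, if_neg (idx_pos e v).ne', zero_add, finset_sum_coeff,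
    Finset.sum_eq_single v]
  · rw [coeff_C_mul, h2, if_pos rfl, mul_one]
  · intro v' _ hv'
    rw [coeff_C_mul, h2, if_neg hv', mul_zero]
  · intro h; exact absurd (Finset.mem_univ _) h

theorem vS_coeff_zero {L : Type} [Field L] (q D : ℕ) (hq : 0 < q) (e : Fin m → ℕ)
    (σ : ∀ i, Equiv.Perm (Fin (e i))) (w : Fin m → Fin n → L) (y : L)
    (s : IX n e) : (vS q D e σ w y s).coeff 0 = y := by
  unfold vS
  rw [coeff_add, coeff_C, if_pos rfl, finset_sum_coeff, Finset.sum_eq_zero, add_zero]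
  intro v _
  rw [coeff_C_mul, finset_sum_coeff, sum_eq_zero, mul_zero]
  intro k _
  rw [coeff_X_pow, if_neg]
  have h1 := idx_pos e ⟨v.1, ((σ v.1)⁻¹ ^ k) v.2⟩
  have h2 : 0 < q ^ k := Nat.pow_pos hq
  exact (Nat.mul_pos h1 h2).ne

theorem vS_natDegree {L : Type} [Field L] (q D : ℕ) (hq : 0 < q) (e : Fin m → ℕ)
    (σ : ∀ i, Equiv.Perm (Fin (e i))) (w : Fin m → Fin n → L) (y : L)
    (s : IX n e) : (vS q D e σ w y s).natDegree ≤ Fintype.card (Σ i, Fin (e i)) * q ^ (D - 1) := by
  unfold vS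
  refine (natDegree_add_le _ _).trans (max_le (by simp) ?_)
  apply natDegree_sum_le_of_forall_le
  intro v _
  refine (natDegree_C_mul_le _ _).trans ?_
  apply natDegree_sum_le_of_forall_le
  intro k hk
  rw [mem_range] at hk
  refine (natDegree_X_pow_le _).trans ?_
  exact Nat.mul_le_mul (idx_le e _) (Nat.pow_le_pow_right hq (by omega))

/-- **Linear forms which separate the tuples.** -/
theorem exists_sepS {L : Type} [Field L] (q D : ℕ) (hD : 1 ≤ D) (e : Fin m → ℕ)
    (hq : Fintype.card (Σ i, Fin (e i)) < q)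
    (σ : ∀ i, Equiv.Perm (Fin (e i))) (w w' : Fin m → Fin n → L)
    (hw : ∀ i, Function.Injective (w i)) (hw' : ∀ i, Function.Injective (w' i)) (y y' : L)
    (hy : y ≠ y') : ∃ Bad : Finset L,
      Bad.card ≤ (2 * Fintype.card (IX n e)) ^ 2 * (Fintype.card (Σ i, Fin (e i)) * q ^ (D - 1)) ∧
      ∀ t ∉ Bad, Function.Injective
        (Sum.elim (vl e (lams q D e σ t) w y) (vl e (lams q D e σ t) w' y')) := by
  classical
  have hq0 : 0 < q := by omega
  set P : IX n e ⊕ IX n e → L[X] := Sum.elim (vS q D e σ w y) (vS q D e σ w' y') with hP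
  have hne : ∀ u v, u ≠ v → P u ≠ P v := by
    have key : ∀ (w : Fin m → Fin n → L) (hw : ∀ i, Function.Injective (w i)) (y : L)
        (s s' : IX n e), vS q D e σ w y s = vS q D e σ w y s' → s = s' := by
      intro w hw y s s' h
      funext i
      apply DFunLike.ext
      intro j
      apply hw i
      have h1 := congrArg (fun q => q.coeff (idx e ⟨i, j⟩)) h
      simp only [vS_coeff q D hD e hq] at h1
      exact h1
    intro u v huv h
    apply huv
    rcases u with s | s <;> rcases v with s' | s'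
    · exact congrArg Sum.inl (key w hw y s s' h)
    · exfalso
      apply hy
      have h1 := congrArg (fun q => q.coeff 0) h
      simp only [hP, Sum.elim_inl, Sum.elim_inr, vS_coeff_zero q D hq0] at h1
      exact h1
    · exfalso
      apply hy
      have h1 := congrArg (fun q => q.coeff 0) h
      simp only [hP, Sum.elim_inl, Sum.elim_inr, vS_coeff_zero q D hq0] at h1
      exact h1.symm
    · exact congrArg Sum.inr (key w' hw' y' s s' h)
  refine ⟨(Finset.univ : Finset ((IX n e ⊕ IX n e) × (IX n e ⊕ IX n e))).biUnion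
    (fun z => (P z.1 - P z.2).roots.toFinset), ?_, ?_⟩
  · refine (Finset.card_biUnion_le_card_mul _ _ (Fintype.card (Σ i, Fin (e i)) * q ^ (D - 1)) ?_).trans
      ?_
    · intro z _
      refine (Multiset.toFinset_card_le _).trans ((card_roots' _).trans ?_)
      refine (natDegree_sub_le _ _).trans (max_le ?_ ?_)
      · rcases z.1 with s | s
        · exact vS_natDegree q D hq0 e σ w y s
        · exact vS_natDegree q D hq0 e σ w' y' s
      · rcases z.2 with s | s
        · exact vS_natDegree q D hq0 e σ w y s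
        · exact vS_natDegree q D hq0 e σ w' y' s
    · apply Nat.mul_le_mul_right
      rw [Finset.card_univ, Fintype.card_prod, Fintype.card_sum, sq, two_mul]
  · intro t ht u v huv
    by_contra hne'
    apply ht
    rw [Finset.mem_biUnion]
    refine ⟨(u, v), Finset.mem_univ _, ?_⟩
    rw [Multiset.mem_toFinset, mem_roots (sub_ne_zero.2 (hne u v hne')), IsRoot.def, eval_sub,
      sub_eq_zero]
    have h1 : ∀ u, (P u).eval t = Sum.elim (vl e (lams q D e σ t) w y)
        (vl e (lams q D e σ t) w' y') u := by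
      intro u
      rcases u with s | s
      · exact vS_eval q D e σ w y t s
      · exact vS_eval q D e σ w' y' t s
    rw [h1, h1]
    exact huv

end lam

/-- the number of elements fixed by a power of the Frobenius -/
theorem card_fixed {F : Type} [Field F] [Fintype F] {K : Type} [Field K] [IsAlgClosed K]
    [Algebra F K] (D : ℕ) (hD : 1 ≤ D) : ∃ T : Finset K, T.card = Fintype.card F ^ D ∧
      ∀ t ∈ T, t ^ Fintype.card F ^ D = t := by
  classical
  set q := Fintype.card F with hq
  have hq1 : 1 < q := Fintype.one_lt_card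
  have hqD : 1 < q ^ D := Nat.one_lt_pow (by omega) hq1
  set P : K[X] := X ^ (q ^ D) - X with hP
  have hqK : ((q ^ D : ℕ) : K) = 0 := by
    push_cast
    have h1 : ((q : ℕ) : K) = 0 := by
      have h2 : ((q : ℕ) : F) = 0 := Nat.cast_card_eq_zero F
      have h3 := congrArg (algebraMap F K) h2
      rwa [map_natCast, map_zero] at h3
    rw [h1, zero_pow (by omega)]
  have hsep : P.Separable := by
    refine ⟨0, -1, ?_⟩
    rw [hP, derivative_sub, derivative_X_pow, derivative_X, hqK]
    simp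
  have hdeg : P.natDegree = q ^ D := by
    rw [hP]
    have h1 : (X ^ (q ^ D) - X : K[X]).natDegree = (X ^ (q ^ D) : K[X]).natDegree :=
      natDegree_sub_eq_left_of_natDegree_lt (by rw [natDegree_X, natDegree_X_pow]; exact hqD)
    rw [h1, natDegree_X_pow]
  have hP0 : P ≠ 0 := by
    intro h
    rw [h, natDegree_zero] at hdeg
    omega
  refine ⟨P.roots.toFinset, ?_, ?_⟩
  · rw [Multiset.toFinset_card_of_nodup (nodup_roots hsep),
      ← (IsAlgClosed.splits P).natDegree_eq_card_roots, hdeg]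
  · intro t ht
    rw [Multiset.mem_toFinset, mem_roots hP0, IsRoot.def, hP, eval_sub, eval_pow, eval_X,
      sub_eq_zero] at ht
    exact ht

end Pool.Agent.K9h5.U
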