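import Mathlib
import Pool.Agent.K9h5.U.Lam

/-!
# Tuples of roots on which the Frobenius acts by given permutations
-/

set_option autoImplicit false
set_option linter.all false

namespace Pool.Agent.K9h5.U

open Polynomial Finset Pool.Agent.K9h5 Pool.Agent.K9h5.T Pool.Agent.H901R3.MS

/-- the roots are distinct if the tuples are separated -/
theorem w_injL {L : Type} [Field L] {m n : ℕ} (e : Fin m → ℕ) (lam : ∀ i, Fin (e i) → L)
    (w : Fin m → Fin n → L) (y : L)
    (hinj : Function.Injective (vl e lam w y)) (hne : Nonempty (IX n e)) (i : Fin m)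
    (hi : 1 ≤ e i) : Function.Injective (w i) := by
  classical
  intro j j' hjj
  by_contra hne'
  obtain ⟨s⟩ := hne
  set s1 : IX n e := Function.update s i
    ((s i).trans (Equiv.swap (s i ⟨0, hi⟩) j).toEmbedding) with hs1
  have h1 : s1 i ⟨0, hi⟩ = j := by
    rw [hs1, Function.update_self]
    show Equiv.swap (s i ⟨0, hi⟩) j (s i ⟨0, hi⟩) = j
    rw [Equiv.swap_apply_left]
  set s2 : IX n e := Function.update s1 i ((s1 i).trans (Equiv.swap j j').toEmbedding) with hs2
  have h2 : s2 i ⟨0, hi⟩ = j' := by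
    rw [hs2, Function.update_self]
    show Equiv.swap j j' (s1 i ⟨0, hi⟩) = j'
    rw [h1, Equiv.swap_apply_left]
  have h3 : vl e lam w y s2 = vl e lam w y s1 := by
    unfold vl
    congr 1
    refine Finset.sum_congr rfl fun i' _ => Finset.sum_congr rfl fun k _ => ?_
    congr 1
    by_cases hi' : i' = i
    · subst hi'
      rw [hs2, Function.update_self]
      show w i' (Equiv.swap j j' (s1 i' k)) = w i' (s1 i' k)
      by_cases hk : s1 i' k = j
      · rw [hk, Equiv.swap_apply_left]
        exact hjj.symm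
      · by_cases hk' : s1 i' k = j'
        · rw [hk', Equiv.swap_apply_right]
          exact hjj
        · rw [Equiv.swap_apply_of_ne_of_ne hk hk']
    · rw [hs2, Function.update_of_ne hi']
  have h4 := hinj h3
  rw [h4, h1] at h2
  exact hne' h2

theorem vl_frob {L : Type} [Field L] {m n : ℕ} (e : Fin m → ℕ)
    (σ : ∀ i, Equiv.Perm (Fin (e i))) (lam : ∀ i, Fin (e i) → L)
    (w w' : Fin m → Fin n → L) (y : L)
    (φ : L →+* L) (hlam : ∀ i j, φ (lam i j) = lam i (σ i j)) (π : ∀ i, Fin n ↪ Fin n)
    (hπ : ∀ i, 1 ≤ e i → ∀ j, φ (w i j) = w' i (π i j))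
    (s : IX n e) :
    φ (vl e lam w y s) = vl e lam w' (φ y) (actP e σ (fun i => (s i).trans (π i))) := by
  rw [vl_map, ← vl_perm]
  unfold vl
  congr 1
  refine Finset.sum_congr rfl fun i _ => Finset.sum_congr rfl fun j _ => ?_
  have e1 := hlam i j
  have e2 := hπ i (by have := j.2; omega) (s i j)
  show φ (lam i j) * φ (w i (s i j)) = lam i (σ i j) * w' i (π i (s i j))
  rw [e1, e2]

/-- the number of tuples of distinct roots on which the Frobenius acts as `σ` -/
noncomputable def nf {F : Type} [Field F] [Fintype F] (K : Type) [Field K] [Algebra F K] {e : ℕ}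
    (σ : Equiv.Perm (Fin e)) (P : F[X]) : ℕ :=
  Nat.card {s : Fin e ↪ K // ∀ j,
    (P.map (algebraMap F K)).eval (s j) = 0 ∧ (s j) ^ Fintype.card F = s (σ j)}

section

variable {F : Type} [Field F] [Fintype F] {K : Type} [Field K] [Algebra F K]

theorem nf_eq {n e : ℕ} (σ : Equiv.Perm (Fin e)) (c : Fin n → F) (w : Fin n → K)
    (hw : pol (fun k => algebraMap F K (c k)) = ∏ j, (X - C (w j)))
    (hinj : 1 ≤ e → Function.Injective w)
    [DecidablePred (fun s : Fin e ↪ Fin n => ∀ j, (w (s j)) ^ Fintype.card F = w (s (σ j)))]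
    (hne : Nonempty (Fin e ↪ Fin n)) :
    nf K σ (pol c) = (univ.filter (fun s : Fin e ↪ Fin n =>
      ∀ j, (w (s j)) ^ Fintype.card F = w (s (σ j)))).card := by
  classical
  unfold nf
  have hroot : ∀ z : K,
      ((pol c).map (algebraMap F K)).eval z = 0 ↔ ∃ j, w j = z := by
    intro z
    rw [pol_map, hw, eval_prod, Finset.prod_eq_zero_iff]
    constructor
    · rintro ⟨j, _, h⟩
      rw [eval_sub, eval_X, eval_C, sub_eq_zero] at h
      exact ⟨j, h.symm⟩
    · rintro ⟨j, rfl⟩
      exact ⟨j, mem_univ j, by simp⟩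
  have e0 : (univ.filter (fun s : Fin e ↪ Fin n =>
      ∀ j, (w (s j)) ^ Fintype.card F = w (s (σ j)))).card =
      Nat.card {s : Fin e ↪ Fin n // ∀ j, (w (s j)) ^ Fintype.card F = w (s (σ j))} := by
    rw [Nat.card_eq_fintype_card, Fintype.card_subtype]
  rw [e0]
  symm
  rcases Nat.eq_zero_or_pos e with he | he
  · subst he
    haveI : IsEmpty (Fin 0) := Fin.isEmpty
    have e1 : Nat.card {s : Fin 0 ↪ Fin n // ∀ j, (w (s j)) ^ Fintype.card F = w (s (σ j))} = 1 := by
      rw [Nat.card_eq_one_iff_unique]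
      refine ⟨⟨fun s s' => Subtype.ext (DFunLike.ext _ _ fun j => j.elim0)⟩, ?_⟩
      obtain ⟨s⟩ := hne
      exact ⟨⟨s, fun j => j.elim0⟩⟩
    have e2 : Nat.card {s : Fin 0 ↪ K // ∀ j,
        ((pol c).map (algebraMap F K)).eval (s j) = 0 ∧
        (s j) ^ Fintype.card F = s (σ j)} = 1 := by
      rw [Nat.card_eq_one_iff_unique]
      refine ⟨⟨fun s s' => Subtype.ext (DFunLike.ext _ _ fun j => j.elim0)⟩, ?_⟩
      exact ⟨⟨⟨fun j => j.elim0, fun j => j.elim0⟩, fun j => j.elim0⟩⟩
    rw [e1, e2]
  · have hwi := hinj he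
    apply Nat.card_congr
    refine Equiv.ofBijective (fun s => ⟨s.1.trans ⟨w, hwi⟩, fun j =>
      ⟨(hroot _).2 ⟨s.1 j, rfl⟩, s.2 j⟩⟩) ⟨?_, ?_⟩
    · intro s s' h
      apply Subtype.ext
      apply DFunLike.ext
      intro j
      apply hwi
      have h1 := congrArg Subtype.val h
      exact DFunLike.congr_fun h1 j
    · rintro ⟨s, hs⟩
      choose g hg using fun j => (hroot _).1 (hs j).1
      have hgi : Function.Injective g := by
        intro j j' h
        apply s.injective
        rw [← hg, ← hg, h]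
      refine ⟨⟨⟨g, hgi⟩, fun j => ?_⟩, ?_⟩
      · show (w (g j)) ^ Fintype.card F = w (g (σ j))
        rw [hg, hg]
        exact (hs j).2
      · apply Subtype.ext
        apply DFunLike.ext
        intro j
        exact hg j

/-- **One half of the fibre, split case.** -/
theorem half_countS {m n : ℕ} (e : Fin m → ℕ) (σ : ∀ i, Equiv.Perm (Fin (e i)))
    (c : Fin m → Fin n → F) (w : Fin m → Fin n → K)
    (lam : ∀ i, Fin (e i) → K)
    (hlam : ∀ i j, (lam i j) ^ Fintype.card F = lam i (σ i j))
    (y : F) (hw : ∀ i, pol (fun k => algebraMap F K (c i k)) =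
      ∏ j, (X - C (w i j)))
    (hinj : Function.Injective (vl e lam w (algebraMap F K y)))
    (hne : Nonempty (IX n e))
    [DecidablePred (fun s : IX n e => (vl e lam w (algebraMap F K y) s) ^
      Fintype.card F = vl e lam w (algebraMap F K y) s)] :
    (univ.filter (fun s : IX n e => (vl e lam w (algebraMap F K y) s) ^
      Fintype.card F = vl e lam w (algebraMap F K y) s)).card =
        ∏ i, nf K (σ i) (pol (c i)) := by
  classical
  have hwi := w_injL e lam w _ hinj hne
  set φ : K →+* K :=
    (FiniteField.frobeniusAlgHom F K : K →+* K) with hφ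
  have hφa : ∀ z : K, φ z = z ^ Fintype.card F := fun z => rfl
  have hφF : ∀ u : F, φ (algebraMap F K u) =
      algebraMap F K u := fun u =>
    (FiniteField.frobeniusAlgHom F K).commutes u
  obtain ⟨π, hπ⟩ := exists_perm e (fun i k => algebraMap F K (c i k)) w w hw φ (by
    intro i
    simp only [hφF]
    exact hw i) hwi
  have h1 : ∀ s : IX n e, ((vl e lam w (algebraMap F K y) s) ^
      Fintype.card F = vl e lam w (algebraMap F K y) s) ↔
      ∀ i, ∀ j, (w i (s i j)) ^ Fintype.card F = w i (s i (σ i j)) := by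
    intro s
    rw [← hφa, vl_frob e σ lam w w _ φ (fun i j => by rw [hφa]; exact hlam i j) π hπ s, hφF,
      hinj.eq_iff, ← Equiv.eq_symm_apply]
    constructor
    · intro h i j
      rw [← hφa, hπ i (by have := j.2; omega)]
      have h2 : π i (s i j) = s i (σ i j) := DFunLike.congr_fun (congrFun h i) j
      rw [h2]
    · intro h
      funext i
      apply DFunLike.ext
      intro j
      have h2 := h i j
      rw [← hφa, hπ i (by have := j.2; omega)] at h2
      exact hwi i (by have := j.2; omega) h2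
  rw [filter_congr (fun s _ => h1 s)]
  have h2 : univ.filter (fun s : IX n e => ∀ i, ∀ j, (w i (s i j)) ^ Fintype.card F =
      w i (s i (σ i j))) = Fintype.piFinset (fun i => univ.filter (fun s : Fin (e i) ↪ Fin n =>
      ∀ j, (w i (s j)) ^ Fintype.card F = w i (s (σ i j)))) := by
    ext s
    rw [mem_filter, Fintype.mem_piFinset]
    simp only [mem_filter, mem_univ, true_and]
  rw [h2, Fintype.card_piFinset]
  refine Finset.prod_congr rfl fun i _ => ?_
  obtain ⟨s⟩ := hne
  rw [nf_eq (σ i) (c i) (w i) (hw i) (hwi i) ⟨s i⟩]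

/-- **The non-split case.** -/
theorem flip_countS {L : Type} [Field L] {m n : ℕ} (e : Fin m → ℕ)
    (σ : ∀ i, Equiv.Perm (Fin (e i)))
    (c c' : Fin m → Fin n → L) (w w' : Fin m → Fin n → L) (lam : ∀ i, Fin (e i) → L)
    (y : L) (φ : L →+* L) (hlam : ∀ i j, φ (lam i j) = lam i (σ i j)) (hφy : φ y = -y)
    (hw : ∀ i, pol (c i) = ∏ j, (X - C (w i j)))
    (hw' : ∀ i, pol (fun k => φ (c i k)) = ∏ j, (X - C (w' i j)))
    (hinj : Function.Injective (Sum.elim (vl e lam w y) (vl e lam w' (-y))))
    (hne : Nonempty (IX n e)) (s : IX n e) : φ (vl e lam w y s) ≠ vl e lam w y s := by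
  have hinj1 : Function.Injective (vl e lam w y) := fun s s' h =>
    Sum.inl_injective (hinj (show Sum.elim (vl e lam w y) (vl e lam w' (-y)) (Sum.inl s) =
      Sum.elim (vl e lam w y) (vl e lam w' (-y)) (Sum.inl s') from h))
  obtain ⟨π, hπ⟩ := exists_perm e c w w' hw φ hw' (w_injL e lam w _ hinj1 hne)
  rw [vl_frob e σ lam w w' y φ hlam π hπ s, hφy]
  intro h
  have h2 := hinj (show Sum.elim (vl e lam w y) (vl e lam w' (-y)) (Sum.inr _) =
      Sum.elim (vl e lam w y) (vl e lam w' (-y)) (Sum.inl s) from h)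
  cases h2

end

theorem evQ_cK {F K : Type} [Field F] [Field K] [Algebra F K] (a b x : F) (y : K)
    (h : y ^ 2 = (algebraMap F K x) ^ 3 + algebraMap F K a * (algebraMap F K x) + algebraMap F K b)
    (z : QA F a b) :
    evQ (RingHom.id K) (algebraMap F K a) (algebraMap F K b) (algebraMap F K x) y h
      (mapQ (algebraMap F K) a b (algebraMap F K a) (algebraMap F K b) rfl rfl z) =
      evQ (algebraMap F K) a b (algebraMap F K x) y h z := by
  rw [evQ_apply, evQ_apply, mapQ_re, mapQ_im, eval₂_map, eval₂_map, RingHom.id_comp]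

section

variable {F : Type} [Field F] [Fintype F] [DecidableEq F] {K : Type} [Field K] [Algebra F K]
  [IsAlgClosed K]

/-- **The fibre.** -/
theorem fibS {m n : ℕ} (e : Fin m → ℕ) (σ : ∀ i, Equiv.Perm (Fin (e i))) (a b : F)
    (lam : ∀ i, Fin (e i) → K)
    (hlam : ∀ i j, (lam i j) ^ Fintype.card F = lam i (σ i j))
    (c : Fin m → Fin n → QA F a b) (Θ : F[X][X])
    (hΘ : Θ.map (mapRingHom (algebraMap F K)) =
      Th _ _ m e lam 1 (cK K c)) (x0 : F)
    (hx : (Θ.map (evalRingHom x0)).Separable)
    (hne : Nonempty (IX n e)) (h2 : (2 : F) ≠ 0) :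
    (univ.filter (fun T : F => evalEval x0 T Θ = 0)).card =
      ∑ y ∈ univ.filter (fun y : F => y ^ 2 = x0 ^ 3 + a * x0 + b),
        ∏ i, nf K (σ i) (pol (fun k => vv (c i k) x0 y)) := by
  classical
  set ι : F →+* K := algebraMap F K with hι
  set q := Fintype.card F with hq
  obtain ⟨y, hy⟩ := IsAlgClosed.exists_pow_nat_eq (ι (x0 ^ 3 + a * x0 + b)) (n := 2) (by norm_num)
  have hy1 : y ^ 2 = (ι x0) ^ 3 + ι a * (ι x0) + ι b := by
    rw [hy]; simp only [map_add, map_mul, map_pow]
  have hy2 : (-y) ^ 2 = (ι x0) ^ 3 + ι a * (ι x0) + ι b := by rw [neg_sq, hy1]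
  choose w hw using fun i => exists_roots (pol (fun k => evQ ι a b (ι x0) y hy1 (c i k)))
    (pol_monic _) (pol_natDegree _)
  choose w' hw' using fun i => exists_roots (pol (fun k => evQ ι a b (ι x0) (-y) hy2 (c i k)))
    (pol_monic _) (pol_natDegree _)
  have hev := Th_eval (ι a) (ι b) (RingHom.id K) (ι x0) y hy1 hy2 m e lam 1 (cK K c) w w'
    (fun i => by
      rw [← hw i]
      congr 1
      funext k
      exact evQ_cK a b x0 y hy1 (c i k))
    (fun i => by
      rw [← hw' i]
      congr 1
      funext k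
      exact evQ_cK a b x0 (-y) hy2 (c i k))
  have hv1 : ∀ s : IX n e, (RingHom.id K) 1 * y + ∑ i, ∑ j, (RingHom.id K) (lam i j) * w i (s i j) =
      vl e lam w y s := by
    intro s
    rw [map_one, one_mul]
    rfl
  have hv2 : ∀ s : IX n e, (RingHom.id K) 1 * (-y) + ∑ i, ∑ j, (RingHom.id K) (lam i j) *
      w' i (s i j) = vl e lam w' (-y) s := by
    intro s
    rw [map_one, one_mul]
    rfl
  simp only [hv1, hv2] at hev
  have hev2 : ((Θ.map (evalRingHom x0)).map ι) =
      ∏ u : IX n e ⊕ IX n e, (X - C (Sum.elim (vl e lam w y) (vl e lam w' (-y)) u)) := by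
    rw [Fintype.prod_sum_type]
    refine Eq.trans ?_ hev
    rw [← hΘ, Polynomial.map_map, Polynomial.map_map]
    congr 1
    refine RingHom.ext fun p => ?_
    rw [RingHom.comp_apply, RingHom.comp_apply, coe_evalRingHom, coe_eval₂RingHom, coe_mapRingHom,
      eval₂_map, RingHom.id_comp, eval₂_at_apply]
  have hinj : Function.Injective (Sum.elim (vl e lam w y) (vl e lam w' (-y))) := by
    have h1 := hx.map (f := ι)
    rw [hev2, separable_prod_X_sub_C_iff] at h1
    exact h1
  have hinj1 : Function.Injective (vl e lam w y) := fun s s' h =>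
    Sum.inl_injective (hinj (show Sum.elim (vl e lam w y) (vl e lam w' (-y)) (Sum.inl s) =
      Sum.elim (vl e lam w y) (vl e lam w' (-y)) (Sum.inl s') from h))
  have hinj2 : Function.Injective (vl e lam w' (-y)) := fun s s' h =>
    Sum.inr_injective (hinj (show Sum.elim (vl e lam w y) (vl e lam w' (-y)) (Sum.inr s) =
      Sum.elim (vl e lam w y) (vl e lam w' (-y)) (Sum.inr s') from h))
  -- the rational roots
  have hcount : (univ.filter (fun T : F => evalEval x0 T Θ = 0)).card =
      (univ.filter (fun s : IX n e => (vl e lam w y s) ^ q = vl e lam w y s)).card +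
      (univ.filter (fun s : IX n e => (vl e lam w' (-y) s) ^ q = vl e lam w' (-y) s)).card := by
    have key : ∀ T : F, evalEval x0 T Θ = 0 ↔
        ∃ u, Sum.elim (vl e lam w y) (vl e lam w' (-y)) u = ι T := by
      intro T
      have h1 : ((Θ.map (evalRingHom x0)).map ι).eval (ι T) = ι (evalEval x0 T Θ) := by
        rw [eval_map, eval₂_at_apply, eval_map, eval₂_evalRingHom]
      rw [hev2, eval_prod] at h1
      constructor
      · intro hz
        rw [hz, map_zero, Finset.prod_eq_zero_iff] at h1
        obtain ⟨j, _, h2⟩ := h1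
        rw [eval_sub, eval_X, eval_C, sub_eq_zero] at h2
        exact ⟨j, h2.symm⟩
      · rintro ⟨j, hj⟩
        rw [Finset.prod_eq_zero (Finset.mem_univ j)
          (by rw [eval_sub, eval_X, eval_C, hj, sub_self])] at h1
        exact ι.injective (by rw [← h1, map_zero])
    have h3 : (univ.filter (fun T : F => evalEval x0 T Θ = 0)).card =
        (univ.filter (fun u : IX n e ⊕ IX n e =>
          (Sum.elim (vl e lam w y) (vl e lam w' (-y)) u) ^ q =
            Sum.elim (vl e lam w y) (vl e lam w' (-y)) u)).card := by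
      symm
      refine card_bij (fun u hu => ((pow_card_iff (F := F)
        (Sum.elim (vl e lam w y) (vl e lam w' (-y)) u)).1 (mem_filter.1 hu).2).choose) ?_ ?_ ?_
      · intro u hu
        rw [mem_filter]
        refine ⟨mem_univ _, (key _).2 ⟨u, ?_⟩⟩
        exact ((pow_card_iff (F := F)
          (Sum.elim (vl e lam w y) (vl e lam w' (-y)) u)).1 (mem_filter.1 hu).2).choose_spec.symm
      · intro u hu u' hu' h
        apply hinj
        rw [← ((pow_card_iff (F := F)
          (Sum.elim (vl e lam w y) (vl e lam w' (-y)) u)).1 (mem_filter.1 hu).2).choose_spec,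
          ← ((pow_card_iff (F := F)
          (Sum.elim (vl e lam w y) (vl e lam w' (-y)) u')).1 (mem_filter.1 hu').2).choose_spec]
        exact congrArg _ h
      · intro T hT
        obtain ⟨u, hu⟩ := (key T).1 (mem_filter.1 hT).2
        refine ⟨u, ?_, ?_⟩
        · rw [mem_filter]
          exact ⟨mem_univ _, (pow_card_iff _).2 ⟨T, hu.symm⟩⟩
        · apply ι.injective
          exact Eq.trans ((pow_card_iff (F := F)
            (Sum.elim (vl e lam w y) (vl e lam w' (-y)) u)).1
              ((pow_card_iff _).2 ⟨T, hu.symm⟩)).choose_spec hu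
    rw [h3, ← Fintype.card_subtype, ← Fintype.card_subtype, ← Fintype.card_subtype,
      ← Fintype.card_sum]
    apply Fintype.card_congr
    exact Equiv.subtypeSum
  rw [hcount]
  set φ : K →+* K := (FiniteField.frobeniusAlgHom F K : K →+* K) with hφ
  have hφa : ∀ z : K, φ z = z ^ q := fun z => rfl
  have hφF : ∀ u : F, φ (ι u) = ι u := fun u => (FiniteField.frobeniusAlgHom F K).commutes u
  have hφy : φ y = y ∨ φ y = - y := by
    rw [← sq_eq_sq_iff_eq_or_eq_neg, ← map_pow, hy1]
    simp only [map_add, map_mul, map_pow, hφF]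
  have hφev : ∀ (z : QA F a b) (y' y'' : K) (h : y' ^ 2 = (ι x0) ^ 3 + ι a * (ι x0) + ι b)
      (h' : y'' ^ 2 = (ι x0) ^ 3 + ι a * (ι x0) + ι b), φ y' = y'' →
      φ (evQ ι a b (ι x0) y' h z) = evQ ι a b (ι x0) y'' h' z := by
    intro z y' y'' h h' hyy
    rw [evQ_apply, evQ_apply, eval₂_at_apply, eval₂_at_apply, map_add, map_mul, hφF, hφF, hyy]
  by_cases hyF : ∃ y0 : F, ι y0 = y
  · obtain ⟨y0, hy0⟩ := hyF
    subst hy0
    have hsq : y0 ^ 2 = x0 ^ 3 + a * x0 + b := by
      apply ι.injective
      rw [← hy, map_pow]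
    have hy0 : y0 ≠ 0 := by
      rintro rfl
      obtain ⟨s⟩ := hne
      have e1 : ∀ i, ∃ π : Fin n ↪ Fin n, 1 ≤ e i → ∀ j, w i j = w' i (π j) := by
        obtain ⟨π, hπ⟩ := exists_perm e (fun i k => evQ ι a b (ι x0) (ι 0) hy1 (c i k)) w w' hw
          (RingHom.id K) (by
            intro i
            rw [← hw' i]
            have : (-(ι 0) : K) = ι 0 := by rw [map_zero, neg_zero]
            simp only [RingHom.id_apply, this]) (w_injL e lam w _ hinj1 ⟨s⟩)
        intro i
        exact ⟨π i, fun hi => hπ i hi⟩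
      choose π hπ using e1
      have h3 := vl_frob e (fun _ => 1) lam w w' (ι 0) (RingHom.id K) (fun _ _ => rfl) π
        (fun i hi => hπ i hi) s
      simp only [RingHom.id_apply] at h3
      have h4 := hinj (show Sum.elim (vl e lam w (ι 0)) (vl e lam w' (-ι 0)) (Sum.inl s) =
        Sum.elim (vl e lam w (ι 0)) (vl e lam w' (-ι 0)) (Sum.inr _) from (by
          rw [Sum.elim_inl, Sum.elim_inr, h3, map_zero, neg_zero]))
      cases h4
    have hfil : univ.filter (fun y : F => y ^ 2 = x0 ^ 3 + a * x0 + b) = {y0, -y0} := by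
      ext y
      rw [mem_filter, mem_insert, mem_singleton, ← hsq, sq_eq_sq_iff_eq_or_eq_neg]
      simp
    have hne0 : y0 ≠ -y0 := by
      intro h
      have h5 : 2 * y0 = 0 := by linear_combination h
      rcases mul_eq_zero.1 h5 with h6 | h6
      · exact h2 h6
      · exact hy0 h6
    rw [hfil, sum_pair hne0]
    have hcw : ∀ i, pol (fun k => ι (vv (c i k) x0 y0)) = ∏ j, (X - C (w i j)) := by
      intro i
      rw [← hw i]
      simp only [evQ_vv]
    have hcw' : ∀ i, pol (fun k => ι (vv (c i k) x0 (-y0))) = ∏ j, (X - C (w' i j)) := by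
      intro i
      rw [← hw' i]
      congr 1
      funext k
      rw [evQ_apply, vv, map_add, map_mul, eval₂_at_apply, eval₂_at_apply, map_neg]
    have hmn : (-ι y0) = ι (-y0) := (map_neg ι y0).symm
    simp only [hmn] at hinj2 ⊢
    congr 1
    · exact half_countS e σ (fun i k => vv (c i k) x0 y0) w lam hlam y0 hcw hinj1 hne
    · exact half_countS e σ (fun i k => vv (c i k) x0 (-y0)) w' lam hlam (-y0) hcw' hinj2 hne
  · have hφy' : φ y = -y := by
      rcases hφy with h | h
      · exact absurd ((pow_card_iff (F := F) y).1 h) hyF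
      · exact h
    have hfil : univ.filter (fun y : F => y ^ 2 = x0 ^ 3 + a * x0 + b) = ∅ := by
      rw [filter_eq_empty_iff]
      intro y' _ hy'
      apply hyF
      have h3 : (ι y') ^ 2 = y ^ 2 := by rw [hy, ← hy', map_pow]
      rcases sq_eq_sq_iff_eq_or_eq_neg.1 h3 with h | h
      · exact ⟨y', h⟩
      · exact ⟨-y', by rw [map_neg, h, neg_neg]⟩
    rw [hfil, sum_empty]
    have hφy'' : φ (-y) = y := by rw [map_neg, hφy', neg_neg]
    have hlam' : ∀ i j, φ (lam i j) = lam i (σ i j) := fun i j => hlam i j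
    have e1 : univ.filter (fun s : IX n e => (vl e lam w y s) ^ q = vl e lam w y s) = ∅ := by
      rw [filter_eq_empty_iff]
      intro s _ hs
      refine flip_countS e σ (fun i k => evQ ι a b (ι x0) y hy1 (c i k))
        (fun i k => evQ ι a b (ι x0) y hy1 (c i k)) w w' lam y φ hlam' hφy' hw ?_ hinj hne s hs
      intro i
      rw [← hw' i]
      congr 1
      funext k
      exact hφev _ _ _ _ _ hφy'
    have e2 : univ.filter (fun s : IX n e => (vl e lam w' (-y) s) ^ q =
        vl e lam w' (-y) s) = ∅ := by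
      rw [filter_eq_empty_iff]
      intro s _ hs
      refine flip_countS e σ (fun i k => evQ ι a b (ι x0) (-y) hy2 (c i k))
        (fun i k => evQ ι a b (ι x0) (-y) hy2 (c i k)) w' w lam (-y) φ hlam'
          (by rw [hφy'', neg_neg]) hw' ?_ ?_ hne s hs
      · intro i
        rw [← hw i]
        congr 1
        funext k
        exact hφev _ _ _ _ _ hφy''
      · rw [neg_neg]
        intro u u' huu
        have h3 : ∀ u, Sum.elim (vl e lam w' (-y)) (vl e lam w y) u =
            Sum.elim (vl e lam w y) (vl e lam w' (-y)) (Sum.swap u) := by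
          intro u
          rcases u with u | u <;> rfl
        rw [h3, h3] at huu
        have h4 := congrArg Sum.swap (hinj huu)
        rwa [Sum.swap_swap, Sum.swap_swap] at h4
    rw [e1, e2]
    rfl

end

end Pool.Agent.K9h5.U
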