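import Mathlib
import Pool.Agent.K9h5.U.Fib

/-!
# Counting points on the twisted curves of tuples
-/

set_option autoImplicit false
set_option linter.all false

namespace Pool.Agent.K9h5.U

open Polynomial Finset Pool.Agent.K9h5 Pool.Agent.K9h5.T Pool.Agent.H901R3.MS Pool.Agent.R410.PW

/-! ### the universal curve -/

section

variable (m n D : ℕ) (e : Fin m → ℕ)

/-- the variables of the universal ring -/
abbrev IdxL : Type := (Fin 2 ⊕ (Σ i, Fin (e i))) ⊕ (Fin m × Fin n × Bool × Fin (D + 1))

/-- the universal ring -/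
abbrev UL : Type := MvPolynomial (IdxL m n D e) ℤ

noncomputable def aL : UL m n D e := MvPolynomial.X (Sum.inl (Sum.inl 0))
noncomputable def bL : UL m n D e := MvPolynomial.X (Sum.inl (Sum.inl 1))
noncomputable def lL (i : Fin m) (j : Fin (e i)) : UL m n D e :=
  MvPolynomial.X (Sum.inl (Sum.inr ⟨i, j⟩))
noncomputable def cL (i : Fin m) (k : Fin n) : QA (UL m n D e) (aL m n D e) (bL m n D e) :=
  ⟨∑ l : Fin (D + 1), C (MvPolynomial.X (Sum.inr (i, k, true, l))) * X ^ (l : ℕ),
    ∑ l : Fin (D + 1), C (MvPolynomial.X (Sum.inr (i, k, false, l))) * X ^ (l : ℕ)⟩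

/-- the universal curve -/
noncomputable def ThL : (UL m n D e)[X][X] :=
  Th (aL m n D e) (bL m n D e) m e (lL m n D e) 1 (cL m n D e)

/-- specializations of the universal curve -/
theorem ThL_spec {S : Type} [CommRing S] (a b : S) (lam : ∀ i, Fin (e i) → S)
    (c : Fin m → Fin n → QA S a b)
    (hc : ∀ i k, degQ (c i k) D) : ∃ φ : UL m n D e →+* S,
      (ThL m n D e).map (mapRingHom φ) = Th a b m e lam 1 c := by
  let φ : UL m n D e →+* S := MvPolynomial.eval₂Hom (Int.castRingHom S)
    (Sum.elim (Sum.elim ![a, b] (fun v => lam v.1 v.2))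
      (fun v => if v.2.2.1 then (c v.1 v.2.1).re.coeff v.2.2.2
      else (c v.1 v.2.1).im.coeff v.2.2.2))
  have ha : φ (aL m n D e) = a := MvPolynomial.eval₂_X _ _ _
  have hb : φ (bL m n D e) = b := MvPolynomial.eval₂_X _ _ _
  have hl : (fun i j => φ (lL m n D e i j)) = lam := by
    funext i j
    exact MvPolynomial.eval₂_X _ _ _
  refine ⟨φ, ?_⟩
  unfold ThL
  rw [Th_map φ _ _ a b ha hb, hl, map_one]
  congr 1
  funext i k
  have h1 : ∀ l : Fin (D + 1), φ (MvPolynomial.X (Sum.inr (i, k, true, l))) =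
      (c i k).re.coeff l := fun l => MvPolynomial.eval₂_X _ _ _
  have h2 : ∀ l : Fin (D + 1), φ (MvPolynomial.X (Sum.inr (i, k, false, l))) =
      (c i k).im.coeff l := fun l => MvPolynomial.eval₂_X _ _ _
  ext1
  · rw [mapQ_re]
    simp only [cL, Polynomial.map_sum, Polynomial.map_mul, map_C, Polynomial.map_pow, map_X, h1]
    conv_rhs => rw [(c i k).re.as_sum_range_C_mul_X_pow' (Nat.lt_succ_of_le (hc i k).1)]
    rw [Finset.sum_range]
  · rw [mapQ_im]
    simp only [cL, Polynomial.map_sum, Polynomial.map_mul, map_C, Polynomial.map_pow, map_X, h2]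
    conv_rhs => rw [(c i k).im.as_sum_range_C_mul_X_pow' (Nat.lt_succ_of_le (hc i k).2)]
    rw [Finset.sum_range]

/-- the degrees -/
theorem Th_boundsL : ∃ d δ : ℕ, ∀ {S : Type} [CommRing S] (a b : S) (lam : ∀ i, Fin (e i) → S)
    (c : Fin m → Fin n → QA S a b), (∀ i k, degQ (c i k) D) → ∀ N : ℕ, N = 2 * Fintype.card (IX n e) →
      (∀ i, ((Th a b m e lam 1 c).coeff i).natDegree ≤ d) ∧
      (resultant (Th a b m e lam 1 c) (derivative (Th a b m e lam 1 c)) N (N - 1)).natDegree ≤
        δ := by
  refine ⟨(Bivariate.swap (ThL m n D e)).natDegree, (resultant (ThL m n D e)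
    (derivative (ThL m n D e)) (2 * Fintype.card (IX n e)) (2 * Fintype.card (IX n e) - 1)).natDegree, ?_⟩
  intro S _ a b lam c hc N hN
  obtain ⟨φ, hφ⟩ := ThL_spec m n D e a b lam c hc
  constructor
  · intro i
    rw [← hφ, coeff_map, coe_mapRingHom]
    exact natDegree_map_le.trans (natDegree_coeff_le _ i)
  · rw [← hφ, derivative_map, resultant_map_map, hN, coe_mapRingHom]
    exact natDegree_map_le

end

section

variable {F : Type} [Field F] [Fintype F] [DecidableEq F] {K : Type} [Field K] [Algebra F K]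

theorem nf_le {n e : ℕ} (σ : Equiv.Perm (Fin e)) (c : Fin n → F) : nf K σ (pol c) ≤ n ^ e := by
  classical
  unfold nf
  set P := (pol c).map (algebraMap F K) with hP
  have hPm : P.Monic := (pol_monic c).map _
  have hPd : P.natDegree = n := by rw [(pol_monic c).natDegree_map, pol_natDegree]
  have h1 : Nat.card {s : Fin e ↪ K // ∀ j, P.eval (s j) = 0 ∧ (s j) ^ Fintype.card F = s (σ j)} ≤
      Nat.card (Fin e → {z // z ∈ P.roots.toFinset}) := by
    refine Nat.card_le_card_of_injective (fun s j => ⟨s.1 j, ?_⟩) ?_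
    · rw [Multiset.mem_toFinset, mem_roots hPm.ne_zero]
      exact (s.2 j).1
    · intro s s' h
      apply Subtype.ext
      apply DFunLike.ext
      intro j
      exact congrArg Subtype.val (congrFun h j)
  refine h1.trans ?_
  rw [Nat.card_eq_fintype_card, Fintype.card_fun, Fintype.card_fin, Fintype.card_coe]
  apply Nat.pow_le_pow_left
  refine (Multiset.toFinset_card_le _).trans ((card_roots' _).trans ?_)
  rw [hPd]

/-- the sum over the points -/
noncomputable def TSS (K : Type) [Field K] [Algebra F K] {m n : ℕ} (e : Fin m → ℕ)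
    (σ : ∀ i, Equiv.Perm (Fin (e i))) (a b : F) (c : Fin m → Fin n → QA F a b) : ℕ :=
  ∑ z ∈ Sf (fE a b), ∏ i, nf K (σ i) (pol (fun k => vv (c i k) z.1 z.2))

theorem termS_le {m n : ℕ} (e : Fin m → ℕ) (σ : ∀ i, Equiv.Perm (Fin (e i))) (a b : F)
    (c : Fin m → Fin n → QA F a b) (x y : F) :
    ∏ i, nf K (σ i) (pol (fun k => vv (c i k) x y)) ≤ ∏ i, n ^ (e i) := by
  apply Finset.prod_le_prod'
  intro i _
  exact nf_le (σ i) _

theorem TSS_le {m n : ℕ} (e : Fin m → ℕ) (σ : ∀ i, Equiv.Perm (Fin (e i))) (a b : F)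
    (c : Fin m → Fin n → QA F a b) :
    TSS K e σ a b c ≤ 2 * Fintype.card F * ∏ i, n ^ (e i) := by
  unfold TSS
  refine (sum_le_card_nsmul _ _ _ (fun z _ => termS_le e σ a b c z.1 z.2)).trans ?_
  rw [smul_eq_mul]
  apply Nat.mul_le_mul_right
  have h1 := fib_card (Sf (fE a b)) univ 2 (by
    intro x
    refine (card_le_card ?_).trans (sq_card_le ((fE a b).eval x))
    intro y hy
    simp only [Sf, mem_filter, mem_univ, true_and] at hy ⊢
    exact hy)
  rw [filter_true_of_mem (fun _ _ => mem_univ _), card_univ] at h1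
  exact h1

variable [IsAlgClosed K]

/-- comparison of the two counts -/
theorem TSS_compare {m n : ℕ} (e : Fin m → ℕ) (σ : ∀ i, Equiv.Perm (Fin (e i))) (a b : F)
    (lam : ∀ i, Fin (e i) → K) (hlam : ∀ i j, (lam i j) ^ Fintype.card F = lam i (σ i j))
    (c : Fin m → Fin n → QA F a b) (Θ : F[X][X])
    (hΘ : Θ.map (mapRingHom (algebraMap F K)) = Th _ _ m e lam 1 (cK K c))
    (h2 : (2 : F) ≠ 0) (hne : Nonempty (IX n e)) (hN : Θ.Monic)
    (N : ℕ) (hN' : Θ.natDegree = N) (δ : ℕ)
    (hD : resultant Θ (derivative Θ) N (N - 1) ≠ 0)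
    (hδ : (resultant Θ (derivative Θ) N (N - 1)).natDegree ≤ δ) :
    |((univ.filter (fun z : F × F => evalEval z.1 z.2 Θ = 0)).card : ℝ) -
      TSS K e σ a b c| ≤ δ * (N + 2 * ∏ i, (n : ℝ) ^ (e i)) := by
  classical
  set D := resultant Θ (derivative Θ) N (N - 1) with hDdef
  have hrhs : (univ.filter (fun z : F × F => evalEval z.1 z.2 Θ = 0)).card =
      ∑ x : F, (univ.filter (fun T : F => evalEval x T Θ = 0)).card := by
    rw [card_eq_sum_card_fiberwise (f := fun z : F × F => z.1) (t := univ) (fun _ _ => mem_coe.2 (mem_univ _))]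
    refine sum_congr rfl fun x _ => ?_
    refine card_bij (fun z _ => z.2) ?_ ?_ ?_
    · intro z hz
      simp only [mem_filter, mem_univ, true_and] at hz ⊢
      rw [← hz.2]; exact hz.1
    · intro z hz z' hz' h
      simp only [mem_filter, mem_univ, true_and] at hz hz'
      exact Prod.ext (hz.2.trans hz'.2.symm) h
    · intro T hT
      simp only [mem_filter, mem_univ, true_and] at hT
      exact ⟨(x, T), by simp only [mem_filter, mem_univ, true_and, and_true]; exact hT, rfl⟩
  have hlhs : TSS K e σ a b c = ∑ x : F, ∑ y ∈ univ.filter (fun y : F => y ^ 2 = x ^ 3 + a * x + b),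
      ∏ i, nf K (σ i) (pol (fun k => vv (c i k) x y)) := by
    unfold TSS
    rw [← sum_fiberwise_of_maps_to (s := Sf (fE a b)) (t := univ) (g := fun z => z.1)
      (fun _ _ => mem_univ _)]
    refine sum_congr rfl fun x _ => ?_
    refine sum_bij (fun z _ => z.2) ?_ ?_ ?_ ?_
    · intro z hz
      simp only [Sf, mem_filter, mem_univ, true_and] at hz ⊢
      rw [← hz.2, hz.1, fE_eval]
    · intro z hz z' hz' h
      simp only [mem_filter] at hz hz'
      exact Prod.ext (hz.2.trans hz'.2.symm) h
    · intro y hy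
      simp only [mem_filter, mem_univ, true_and] at hy
      exact ⟨(x, y), by simp only [Sf, mem_filter, mem_univ, true_and, and_true]; rw [fE_eval]; exact hy, rfl⟩
    · intro z hz
      simp only [mem_filter] at hz
      rw [← hz.2]
  rw [hrhs, hlhs]
  push_cast
  rw [← sum_sub_distrib]
  refine (abs_sum_le_sum_abs _ _).trans ?_
  have hpt : ∀ x : F, |((univ.filter (fun T : F => evalEval x T Θ = 0)).card : ℝ) -
      ∑ y ∈ univ.filter (fun y : F => y ^ 2 = x ^ 3 + a * x + b),
      ∏ i, (nf K (σ i) (pol (fun k => vv (c i k) x y)) : ℝ)| ≤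
      if D.eval x = 0 then (N + 2 * ∏ i, (n : ℝ) ^ (e i)) else 0 := by
    intro x
    by_cases hx : D.eval x = 0
    · rw [if_pos hx]
      have h3 : ((univ.filter (fun T : F => evalEval x T Θ = 0)).card : ℝ) ≤ N := by
        have hm : (Θ.map (evalRingHom x)).Monic := hN.map _
        have h4 := roots_card_le _ hm.ne_zero
        rw [hN.natDegree_map, hN'] at h4
        refine le_trans (Nat.cast_le.2 (card_le_card ?_)) (Nat.cast_le.2 h4)
        intro w hw
        simp only [mem_filter, mem_univ, true_and] at hw ⊢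
        rw [← hw, ← eval₂_evalRingHom, eval_map]
      have h5 : (∑ y ∈ univ.filter (fun y : F => y ^ 2 = x ^ 3 + a * x + b),
          ∏ i, (nf K (σ i) (pol (fun k => vv (c i k) x y)) : ℝ)) ≤
          2 * ∏ i, (n : ℝ) ^ (e i) := by
        have h6 : ∀ y ∈ univ.filter (fun y : F => y ^ 2 = x ^ 3 + a * x + b),
            ∏ i, (nf K (σ i) (pol (fun k => vv (c i k) x y)) : ℝ) ≤
              ∏ i, (n : ℝ) ^ (e i) := by
          intro y _
          exact_mod_cast termS_le e σ a b c x y
        refine (sum_le_card_nsmul _ _ _ h6).trans ?_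
        rw [nsmul_eq_mul]
        apply mul_le_mul_of_nonneg_right
        · exact_mod_cast sq_card_le (x ^ 3 + a * x + b)
        · positivity
      have h7 : 0 ≤ ∑ y ∈ univ.filter (fun y : F => y ^ 2 = x ^ 3 + a * x + b),
          ∏ i, (nf K (σ i) (pol (fun k => vv (c i k) x y)) : ℝ) := by positivity
      rw [abs_le]
      constructor
      · have : (0 : ℝ) ≤ ((univ.filter (fun T : F => evalEval x T Θ = 0)).card : ℝ) := by positivity
        have : (0 : ℝ) ≤ N := by positivity
        linarith
      · have : 0 ≤ 2 * ∏ i, (n : ℝ) ^ (e i) := by positivity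
        linarith
    · rw [if_neg hx]
      have hs : (Θ.map (evalRingHom x)).Separable := by
        rw [res_sep _ (hN.map _) N (by rw [hN.natDegree_map, hN']), derivative_map, resultant_map_map,
          coe_evalRingHom]
        exact hx
      have h3 := fibS e σ a b lam hlam c Θ hΘ x hs hne h2
      rw [h3]
      push_cast
      rw [sub_self, abs_zero]
  refine (sum_le_sum (fun x _ => hpt x)).trans ?_
  rw [← sum_filter, sum_const, nsmul_eq_mul]
  apply mul_le_mul_of_nonneg_right
  · have h3 := roots_card_le D hD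
    exact_mod_cast h3.trans hδ
  · positivity

end

section

/-- the twisted curve -/
theorem exists_Th {F : Type} [Field F] [Fintype F] [DecidableEq F] {K : Type} [Field K]
    [Algebra F K] [IsAlgClosed K] (h2 : (2 : K) ≠ 0) {m n : ℕ} (e : Fin m → ℕ)
    (σ : ∀ i, Equiv.Perm (Fin (e i))) (a b : F) (c : Fin m → Fin n → QA F a b)
    (hne : Nonempty (IX n e))
    (hq : (2 * Fintype.card (IX n e)) ^ 2 * Fintype.card (Σ i, Fin (e i)) < Fintype.card F)
    (hfull : FullM _ _ (cK K c)) :
    ∃ (lam : ∀ i, Fin (e i) → K) (Θ : F[X][X]),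
      (∀ i j, (lam i j) ^ Fintype.card F = lam i (σ i j)) ∧
      Θ.map (mapRingHom (algebraMap F K)) = Th _ _ m e lam 1 (cK K c) ∧
      Θ.Monic ∧ Θ.natDegree = 2 * Fintype.card (IX n e) ∧
      Irreducible (Θ.map (mapRingHom (algebraMap F K))) ∧
      resultant Θ (derivative Θ) (2 * Fintype.card (IX n e)) (2 * Fintype.card (IX n e) - 1) ≠ 0 := by
  classical
  obtain ⟨w, hw, hwi, hπ⟩ := hfull
  obtain ⟨α, hα⟩ := exists_alpha (algebraMap F K a) (algebraMap F K b)
  have hyy : yO (algebraMap F K a) (algebraMap F K b) ≠ -yO (algebraMap F K a) (algebraMap F K b) := by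
    intro h
    have h5 : cO (algebraMap F K a) (algebraMap F K b) 2 *
        yO (algebraMap F K a) (algebraMap F K b) = 0 := by
      rw [map_ofNat]
      linear_combination h
    rcases mul_eq_zero.1 h5 with h6 | h6
    · rw [map_ofNat] at h6
      apply h2
      apply (cO (algebraMap F K a) (algebraMap F K b)).injective
      rw [map_ofNat, map_zero, h6]
    · exact yO_ne _ _ h6
  have hcard : 0 < Fintype.card (IX n e) := by
    haveI := hne
    exact Fintype.card_pos
  have hMq : Fintype.card (Σ i, Fin (e i)) < Fintype.card F := by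
    refine lt_of_le_of_lt ?_ hq
    exact Nat.le_mul_of_pos_left _ (by positivity)
  set D : ℕ := ∏ i, orderOf (σ i) with hD
  have hD1 : 1 ≤ D := by
    rw [hD]
    exact Nat.one_le_iff_ne_zero.2 (prod_ne_zero_iff.2 fun i _ => (orderOf_pos (σ i)).ne')
  have hσD : ∀ i, σ i ^ D = 1 := fun i =>
    orderOf_dvd_iff_pow_eq_one.1 (dvd_prod_of_mem (fun i => orderOf (σ i)) (mem_univ i))
  obtain ⟨T, hTc, hT⟩ := card_fixed (F := F) (K := K) D hD1
  obtain ⟨Bad, hB, hBad⟩ := exists_sepS (Fintype.card F) D hD1 e hMq σ w (fun i j => α (w i j)) hwi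
    (fun i j j' h => hwi i (α.injective h)) (yO (algebraMap F K a) (algebraMap F K b))
    (-yO (algebraMap F K a) (algebraMap F K b)) hyy
  obtain ⟨t, ht, htB⟩ : ∃ t ∈ T, cO (algebraMap F K a) (algebraMap F K b) t ∉ Bad := by
    by_contra hc
    push Not at hc
    have h3 : (T.image (cO (algebraMap F K a) (algebraMap F K b))).card ≤ Bad.card := by
      apply card_le_card
      intro z hz
      obtain ⟨t, ht, rfl⟩ := mem_image.1 hz
      exact hc t ht
    rw [card_image_of_injective _ (cO (algebraMap F K a) (algebraMap F K b)).injective, hTc] at h3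
    have h4 := h3.trans hB
    rw [← mul_assoc] at h4
    have h5 : Fintype.card F ^ D = Fintype.card F * Fintype.card F ^ (D - 1) := by
      rw [← pow_succ']
      congr 1
      omega
    rw [h5] at h4
    have h6 : 0 < Fintype.card F ^ (D - 1) := Nat.pow_pos Fintype.card_pos
    have h7 := Nat.le_of_mul_le_mul_right h4 h6
    omega
  set lam : ∀ i, Fin (e i) → K := lams (Fintype.card F) D e σ t with hlam
  set φ : K →+* K := (FiniteField.frobeniusAlgHom F K : K →+* K) with hφ
  have hφa : ∀ z : K, φ z = z ^ Fintype.card F := fun z => rfl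
  have hφF : ∀ u : F, φ (algebraMap F K u) = algebraMap F K u := fun u =>
    (FiniteField.frobeniusAlgHom F K).commutes u
  have hlf : ∀ i j, (lam i j) ^ Fintype.card F = lam i (σ i j) := fun i j =>
    lams_frob φ (Fintype.card F) hφa D e σ hσD t (hT t ht) i j
  -- the curve
  have hinv : (Th (algebraMap F K a) (algebraMap F K b) m e lam 1 (cK K c)).map (mapRingHom φ) =
      Th (algebraMap F K a) (algebraMap F K b) m e lam 1 (cK K c) := by
    rw [Th_map φ (algebraMap F K a) (algebraMap F K b) (algebraMap F K a) (algebraMap F K b)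
      (hφF a) (hφF b), map_one]
    have e1 : (fun i j => φ (lam i j)) = fun i j => lam i (σ i j) := by
      funext i j
      exact hlf i j
    have e2 : (fun i k => mapQ φ (algebraMap F K a) (algebraMap F K b) (algebraMap F K a)
        (algebraMap F K b) (hφF a) (hφF b) (cK K c i k)) = cK K c := by
      have h3 : φ.comp (algebraMap F K) = algebraMap F K := RingHom.ext hφF
      funext i k
      ext1
      · rw [mapQ_re]
        show (((c i k).re.map (algebraMap F K)).map φ) = (c i k).re.map (algebraMap F K)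
        rw [Polynomial.map_map, h3]
      · rw [mapQ_im]
        show (((c i k).im.map (algebraMap F K)).map φ) = (c i k).im.map (algebraMap F K)
        rw [Polynomial.map_map, h3]
    rw [e1, e2, Th_symm]
  obtain ⟨Θ, hΘ⟩ := desc2 (F := F) (Th (algebraMap F K a) (algebraMap F K b) m e lam 1 (cK K c)) (by
    intro i k
    have h3 := congrArg (fun P => (P.coeff i).coeff k) hinv
    simp only [coeff_map, coe_mapRingHom] at h3
    exact h3)
  obtain ⟨hmonK, hdegK⟩ := Th_monicL (algebraMap F K a) (algebraMap F K b) e lam (cK K c)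
  have hinjM : Function.Injective (mapRingHom (algebraMap F K)) :=
    Polynomial.map_injective _ (algebraMap F K).injective
  have hmon : Θ.Monic := by
    apply hinjM.monic_map_iff.2
    rw [hΘ]
    exact hmonK
  have hdeg : Θ.natDegree = 2 * Fintype.card (IX n e) := by
    rw [← hdegK, ← hΘ, natDegree_map_eq_of_injective hinjM]
  have hsep : ((Th (algebraMap F K a) (algebraMap F K b) m e lam 1 (cK K c)).map
      (kO (algebraMap F K a) (algebraMap F K b))).Separable := by
    rw [th_factL _ _ e lam (cK K c) w hw α hα, separable_prod_X_sub_C_iff]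
    have h3 := hBad _ htB
    rw [← lams_map] at h3
    exact h3
  refine ⟨lam, Θ, hlf, hΘ, hmon, hdeg, ?_, ?_⟩
  · rw [hΘ]
    exact irr_of_tra _ _ e lam 1 (cK K c) w hw (tra_of_full _ _ e w hπ) hsep hne
  · intro h
    rw [← hΘ, Polynomial.map_map, res_sep _ (hmon.map _) (2 * Fintype.card (IX n e))
      (by rw [hmon.natDegree_map, hdeg]), derivative_map, resultant_map_map, h, map_zero] at hsep
    exact hsep rfl

/-- **The number of tuples.** -/
theorem towerS {m n : ℕ} (D : ℕ) (e : Fin m → ℕ) (hne : Nonempty (IX n e)) : ∃ C : ℝ, 0 ≤ C ∧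
    ∀ (F : Type) [Field F] [Fintype F] [DecidableEq F], (2 : F) ≠ 0 →
      ∀ (σ : ∀ i, Equiv.Perm (Fin (e i))) (a b : F)
      (c : Fin m → Fin n → QA F a b), (∀ i k, degQ (c i k) D) →
      FullM _ _ (cK (AlgebraicClosure F) c) →
      |(TSS (AlgebraicClosure F) e σ a b c : ℝ) - Fintype.card F| ≤ C * √(Fintype.card F : ℝ) := by
  classical
  obtain ⟨d, δ, hdδ⟩ := Th_boundsL m n D e
  set N := 2 * Fintype.card (IX n e) with hN
  set B := (2 * Fintype.card (IX n e)) ^ 2 * Fintype.card (Σ i, Fin (e i)) with hB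
  set M : ℝ := ∏ i, (n : ℝ) ^ (e i) with hM
  have hM0 : 0 ≤ M := by positivity
  refine ⟨WC N d δ + δ * (N + 2 * M) + (2 * M + 1) * B, by positivity, ?_⟩
  intro F _ _ _ h2 σ a b c hc hfull
  have hq1 : (1 : ℝ) ≤ √(Fintype.card F : ℝ) := by
    rw [Real.one_le_sqrt]
    exact_mod_cast Fintype.card_pos
  by_cases hqB : Fintype.card F ≤ B
  · -- small fields
    have h3 := TSS_le (K := AlgebraicClosure F) e σ a b c
    have h4 : (TSS (AlgebraicClosure F) e σ a b c : ℝ) ≤ 2 * Fintype.card F * M := by
      have h30 := (Nat.cast_le (α := ℝ)).2 h3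
      push_cast at h30
      exact h30
    have h5 : (Fintype.card F : ℝ) ≤ B * √(Fintype.card F : ℝ) := by
      have : (Fintype.card F : ℝ) ≤ B := by exact_mod_cast hqB
      calc (Fintype.card F : ℝ) ≤ B * 1 := by linarith
        _ ≤ B * √(Fintype.card F : ℝ) := mul_le_mul_of_nonneg_left hq1 (by positivity)
    have h6 : |(TSS (AlgebraicClosure F) e σ a b c : ℝ) - Fintype.card F| ≤
        2 * Fintype.card F * M + Fintype.card F := by
      rw [abs_le]
      constructor
      · have : (0 : ℝ) ≤ TSS (AlgebraicClosure F) e σ a b c := by positivity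
        have : (0 : ℝ) ≤ Fintype.card F := by positivity
        nlinarith
      · have : (0 : ℝ) ≤ Fintype.card F := by positivity
        linarith
    refine h6.trans ?_
    have h7 : 2 * Fintype.card F * M + Fintype.card F = (2 * M + 1) * Fintype.card F := by ring
    rw [h7]
    calc (2 * M + 1) * (Fintype.card F : ℝ) ≤ (2 * M + 1) * (B * √(Fintype.card F : ℝ)) :=
          mul_le_mul_of_nonneg_left h5 (by positivity)
      _ = (2 * M + 1) * B * √(Fintype.card F : ℝ) := by ring
      _ ≤ _ := by
          apply mul_le_mul_of_nonneg_right _ (by positivity)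
          have : (0 : ℝ) ≤ (WC N d δ : ℝ) + δ * (N + 2 * M) := by positivity
          linarith
  · push Not at hqB
    have h2K : (2 : AlgebraicClosure F) ≠ 0 := by
      intro h
      apply h2
      apply (algebraMap F (AlgebraicClosure F)).injective
      rw [map_ofNat, map_zero, h]
    obtain ⟨lam, Θ, hlam, hΘ, hmon, hdeg, hirr, hR0⟩ := exists_Th h2K e σ a b c hne hqB hfull
    rw [← hN] at hR0 hdeg
    set R := resultant Θ (derivative Θ) N (N - 1) with hR
    obtain ⟨P, Q, -, -, hPQ⟩ := exists_mul_add_mul_eq_C_resultant Θ (derivative Θ) (m := N)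
      (n := N - 1) (by rw [hdeg]) ((natDegree_derivative_le _).trans (by rw [hdeg]))
      (Or.inl (by
        haveI := hne
        have := Fintype.card_pos (α := IX n e)
        omega))
    have hcK : ∀ i k, degQ (cK (AlgebraicClosure F) c i k) D := by
      intro i k
      constructor
      · show ((c i k).re.map (algebraMap F (AlgebraicClosure F))).natDegree ≤ D
        exact natDegree_map_le.trans (hc i k).1
      · show ((c i k).im.map (algebraMap F (AlgebraicClosure F))).natDegree ≤ D
        exact natDegree_map_le.trans (hc i k).2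
    obtain ⟨hb1, hb2⟩ := hdδ (algebraMap F (AlgebraicClosure F) a)
      (algebraMap F (AlgebraicClosure F) b) lam (cK (AlgebraicClosure F) c) hcK N hN
    have hb1' : ∀ i, (Θ.coeff i).natDegree ≤ d := by
      intro i
      have h3 := hb1 i
      rw [← hΘ, coeff_map, coe_mapRingHom, natDegree_map] at h3
      exact h3
    have hb2' : R.natDegree ≤ δ := by
      rw [← hΘ, derivative_map, resultant_map_map, coe_mapRingHom, natDegree_map] at hb2
      exact hb2
    have h3 := weil (AlgebraicClosure F) hmon (by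
        rw [hdeg]
        haveI := hne
        have := Fintype.card_pos (α := IX n e)
        omega) (A := P) (B := Q) (D := R) (by rw [← hPQ]; ring) hR0 hb2' hb1' hirr
    rw [hdeg, Nat.card_eq_fintype_card] at h3
    have h4 : ({z : F × F | evalEval z.1 z.2 Θ = 0}.ncard) =
        (univ.filter (fun z : F × F => evalEval z.1 z.2 Θ = 0)).card := by
      rw [← Set.ncard_coe_finset]
      congr 1
      ext z
      simp
    rw [h4] at h3
    have h5 := TSS_compare e σ a b lam hlam c Θ hΘ h2 hne hmon N hdeg δ hR0 hb2'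
    have h6 : |(TSS (AlgebraicClosure F) e σ a b c : ℝ) - Fintype.card F| ≤ δ * (N + 2 * M) +
        WC N d δ * √(Fintype.card F : ℝ) := by
      rw [abs_sub_comm] at h5
      have h7 := abs_add_le ((TSS (AlgebraicClosure F) e σ a b c : ℝ) -
        ((univ.filter (fun z : F × F => evalEval z.1 z.2 Θ = 0)).card : ℝ))
        (((univ.filter (fun z : F × F => evalEval z.1 z.2 Θ = 0)).card : ℝ) - Fintype.card F)
      have h8 : ((TSS (AlgebraicClosure F) e σ a b c : ℝ) -
        ((univ.filter (fun z : F × F => evalEval z.1 z.2 Θ = 0)).card : ℝ)) +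
        (((univ.filter (fun z : F × F => evalEval z.1 z.2 Θ = 0)).card : ℝ) - Fintype.card F) =
        (TSS (AlgebraicClosure F) e σ a b c : ℝ) - Fintype.card F := by ring
      rw [h8] at h7
      linarith
    refine h6.trans ?_
    have h9 : (δ : ℝ) * (N + 2 * M) ≤ δ * (N + 2 * M) * √(Fintype.card F : ℝ) := by
      have : 0 ≤ (δ : ℝ) * (N + 2 * M) := by positivity
      nlinarith
    have h10 : 0 ≤ (2 * M + 1) * B * √(Fintype.card F : ℝ) := by positivity
    nlinarith

end

end Pool.Agent.K9h5.U
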