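import Mathlib
import Pool.Agent.K9h5.U.Tow
import Pool.Agent.K9h5.T.Corn

/-!
# Four-fold correlations of the Frobenius weights
-/

set_option autoImplicit false
set_option linter.all false

namespace Pool.Agent.K9h5.U

open Polynomial Finset Pool.Agent.K9h5 Pool.Agent.K9h5.T Pool.Agent.H901R3.MS WeierstrassCurve

section scale

variable {F : Type} [Field F] [Fintype F] {K : Type} [Field K] [Algebra F K]

/-- scaling does not change the number of tuples -/
theorem nf_scale {n e : ℕ} (σ : Equiv.Perm (Fin e)) (c : Fin n → F) (s : F) (hs : s ≠ 0) :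
    nf K σ (pol (fun k => s ^ ((k : ℕ) + 1) * c k)) = nf K σ (pol c) := by
  have hsK : algebraMap F K s ≠ 0 := by
    rw [Ne, map_eq_zero_iff _ (algebraMap F K).injective]
    exact hs
  have key : ∀ z : K, ((pol (fun k => s ^ ((k : ℕ) + 1) * c k)).map (algebraMap F K)).eval
      (algebraMap F K s * z) = (algebraMap F K s) ^ n * ((pol c).map (algebraMap F K)).eval z := by
    intro z
    rw [pol_map, pol_map]
    unfold pol
    simp only [eval_add, eval_pow, eval_X, eval_finset_sum, eval_mul, eval_C, map_mul, map_pow]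
    rw [mul_add, mul_pow, mul_sum]
    congr 1
    refine sum_congr rfl fun k _ => ?_
    have hk := k.2
    have h2 : (algebraMap F K s) ^ n = (algebraMap F K s) ^ ((k : ℕ) + 1) *
        (algebraMap F K s) ^ (n - 1 - (k : ℕ)) := by
      rw [← pow_add]; congr 1; omega
    rw [h2, mul_pow]
    ring
  have hfix : ∀ t : F, (algebraMap F K t) ^ Fintype.card F = algebraMap F K t := by
    intro t
    rw [← map_pow, FiniteField.pow_card]
  unfold nf
  symm
  apply Nat.card_congr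
  refine ⟨fun z => ⟨⟨fun j => algebraMap F K s * z.1 j, ?_⟩, ?_⟩,
    fun z => ⟨⟨fun j => (algebraMap F K s)⁻¹ * z.1 j, ?_⟩, ?_⟩, ?_, ?_⟩
  · intro j j' h
    exact z.1.injective (mul_left_cancel₀ hsK h)
  · intro j
    refine ⟨?_, ?_⟩
    · show ((pol (fun k => s ^ ((k : ℕ) + 1) * c k)).map (algebraMap F K)).eval
        (algebraMap F K s * z.1 j) = 0
      rw [key, (z.2 j).1, mul_zero]
    · show (algebraMap F K s * z.1 j) ^ Fintype.card F = algebraMap F K s * z.1 (σ j)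
      rw [mul_pow, hfix, (z.2 j).2]
  · intro j j' h
    exact z.1.injective (mul_left_cancel₀ (inv_ne_zero hsK) h)
  · intro j
    refine ⟨?_, ?_⟩
    · show ((pol c).map (algebraMap F K)).eval ((algebraMap F K s)⁻¹ * z.1 j) = 0
      have h1 := key ((algebraMap F K s)⁻¹ * z.1 j)
      rw [← mul_assoc, mul_inv_cancel₀ hsK, one_mul, (z.2 j).1] at h1
      exact (mul_eq_zero.1 h1.symm).resolve_left (pow_ne_zero _ hsK)
    · show ((algebraMap F K s)⁻¹ * z.1 j) ^ Fintype.card F = (algebraMap F K s)⁻¹ * z.1 (σ j)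
      rw [mul_pow, inv_pow, hfix, (z.2 j).2]
  · intro z
    apply Subtype.ext
    apply DFunLike.ext
    intro j
    show (algebraMap F K s)⁻¹ * (algebraMap F K s * z.1 j) = z.1 j
    rw [← mul_assoc, inv_mul_cancel₀ hsK, one_mul]
  · intro z
    apply Subtype.ext
    apply DFunLike.ext
    intro j
    show algebraMap F K s * ((algebraMap F K s)⁻¹ * z.1 j) = z.1 j
    rw [← mul_assoc, mul_inv_cancel₀ hsK, one_mul]

end scale

section weights

variable {F : Type} [Field F] [Fintype F] [DecidableEq F] {a b : F} {n : ℕ}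

/-- the number of orderings of the roots at `u` on which the Frobenius acts as `σ` -/
noncomputable def fS {e : ℕ} (σ : Equiv.Perm (Fin e)) (Φ : Fin n → MvPolynomial (Fin 3) F)
    (u : Pt a b) : ℕ :=
  nf (AlgebraicClosure F) σ (pol (fun k => Gv (Φ k) u))

/-- the weight -/
noncomputable def gS (σ : Equiv.Perm (Fin n)) (Φ : Fin n → MvPolynomial (Fin 3) F)
    (u : Pt a b) : ℝ := (1 - (fS σ Φ u : ℝ)) / (n : ℝ) ^ n

theorem fS_le {e : ℕ} (σ : Equiv.Perm (Fin e)) (Φ : Fin n → MvPolynomial (Fin 3) F) (u : Pt a b) :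
    fS σ Φ u ≤ n ^ e := nf_le σ _

theorem gS_abs_le (hn : 1 ≤ n) (σ : Equiv.Perm (Fin n)) (Φ : Fin n → MvPolynomial (Fin 3) F)
    (u : Pt a b) : |gS σ Φ u| ≤ 1 := by
  unfold gS
  have h1 : ((fS σ Φ u : ℕ) : ℝ) ≤ (n : ℝ) ^ n := by exact_mod_cast fS_le σ Φ u
  have h2 : (0 : ℝ) ≤ fS σ Φ u := Nat.cast_nonneg _
  have h3 : (1 : ℝ) ≤ n := by exact_mod_cast hn
  have h4 : (1 : ℝ) ≤ (n : ℝ) ^ n := one_le_pow₀ h3
  rw [abs_div, abs_of_nonneg (by positivity : (0 : ℝ) ≤ (n : ℝ) ^ n), div_le_one (by positivity),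
    abs_le]
  constructor <;> linarith

theorem gS_ge (σ : Equiv.Perm (Fin n)) (Φ : Fin n → MvPolynomial (Fin 3) F) (u : Pt a b)
    (h : fS σ Φ u = 0) : 1 / (n : ℝ) ^ n ≤ gS σ Φ u := by
  unfold gS
  rw [h, Nat.cast_zero, sub_zero]

/-- the lengths of the tuples -/
def EE (n : ℕ) : Fin 2 → ℕ := ![0, n]

/-- the permutations -/
def SS {n : ℕ} (σ : Equiv.Perm (Fin n)) : ∀ t : Fin 2, Equiv.Perm (Fin (EE n t)) :=
  Fin.cons (1 : Equiv.Perm (Fin 0)) (Fin.cons σ finZeroElim)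

/-- the signs -/
def kS : Fin 2 → ℝ := ![1, -1]

theorem kS_sum : ∑ t : Fin 2, kS t = 0 := by
  rw [Fin.sum_univ_two]
  unfold kS
  simp

theorem kS_abs (t : Fin 2) : |kS t| ≤ 1 := by
  unfold kS
  fin_cases t <;> simp

theorem nf_zero (K : Type) [Field K] [Algebra F K] (σ : Equiv.Perm (Fin 0)) (P : F[X]) :
    nf K σ P = 1 := by
  unfold nf
  rw [Nat.card_eq_one_iff_unique]
  refine ⟨⟨fun s s' => Subtype.ext (DFunLike.ext _ _ fun j => j.elim0)⟩, ?_⟩
  exact ⟨⟨⟨fun j => j.elim0, fun j => j.elim0⟩, fun j => j.elim0⟩⟩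

theorem gS_exp (hn : 1 ≤ n) (σ : Equiv.Perm (Fin n)) (Φ : Fin n → MvPolynomial (Fin 3) F)
    (u : Pt a b) : (n : ℝ) ^ n * gS σ Φ u = ∑ t : Fin 2, kS t * (fS (SS σ t) Φ u : ℝ) := by
  have h3 : (1 : ℝ) ≤ n := by exact_mod_cast hn
  have h4 : (1 : ℝ) ≤ (n : ℝ) ^ n := one_le_pow₀ h3
  rw [Fin.sum_univ_two]
  have e0 : fS (SS σ 0) Φ u = 1 := nf_zero (AlgebraicClosure F) (1 : Equiv.Perm (Fin 0)) _
  have e1 : fS (SS σ 1) Φ u = fS σ Φ u := rfl
  rw [e0, e1]
  unfold gS kS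
  simp only [Matrix.cons_val_zero, Matrix.cons_val_one]
  rw [mul_div_cancel₀ _ (by positivity : ((n : ℝ) ^ n) ≠ 0)]
  push_cast
  ring

end weights

section points

variable {F : Type} [Field F] [Fintype F] [DecidableEq F]

/-- **The sum over the translates.** -/
theorem trans_sumS {m n d : ℕ} {a b : F} (hD : Disc a b) (e : Fin m → ℕ)
    (σ : ∀ i, Equiv.Perm (Fin (e i)))
    (Φ : Fin n → MvPolynomial (Fin 3) F)
    (hΦ : ∀ k, (Φ k).IsHomogeneous (((k : ℕ) + 1) * d)) (x y : Fin m → F)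
    (hn : ∀ i, (CV a b).toAffine.Nonsingular (x i) (y i)) :
    |((∑ u : Pt a b, ∏ i, fS (σ i) Φ (Affine.Point.some (x i) (y i) (hn i) + u) :
      ℕ) : ℝ) - TSS (AlgebraicClosure F) e σ a b (fun i k => phi a b (Φ k) (x i) (y i))| ≤
      (2 * m + 1) * ∏ i, (n : ℝ) ^ (e i) := by
  classical
  set T : Pt a b → ℕ := fun u =>
    ∏ i, fS (σ i) Φ (Affine.Point.some (x i) (y i) (hn i) + u) with hT
  set M : ℝ := ∏ i, (n : ℝ) ^ (e i) with hM
  have hM0 : 0 ≤ M := by positivity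
  have hTM : ∀ u, (T u : ℝ) ≤ M := by
    intro u
    have h1 : T u ≤ ∏ i, n ^ (e i) := by
      rw [hT]
      apply Finset.prod_le_prod'
      intro i _
      exact fS_le (σ i) Φ _
    rw [hM]
    exact_mod_cast h1
  set T' : F × F → ℕ := fun z => ∏ i, nf (AlgebraicClosure F) (σ i)
    (pol (fun k => vv (phi a b (Φ k) (x i) (y i)) z.1 z.2)) with hT'
  have hT'M : ∀ z, (T' z : ℝ) ≤ M := by
    intro z
    have h1 := termS_le (K := AlgebraicClosure F) e σ a b (fun i k => phi a b (Φ k) (x i) (y i))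
      z.1 z.2
    rw [hM]
    exact_mod_cast h1
  have hns : ∀ z ∈ Sf (fE a b), (CV a b).toAffine.Nonsingular z.1 z.2 := by
    intro z hz
    apply (nonsingular_iff hD).2
    simp only [Sf, mem_filter, mem_univ, true_and] at hz
    rw [fE_eval] at hz
    exact hz
  have key : ∀ z ∈ Sf (fE a b), z.1 ∉ univ.image x → T (pz a b z) = T' z := by
    intro z hz hx
    rw [hT, hT']
    simp only
    refine prod_congr rfl fun i _ => ?_
    have hzn := hns z hz
    rw [pz_some z hzn]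
    have hxi : z.1 ≠ x i := fun h => hx (mem_image.2 ⟨i, mem_univ i, h.symm⟩)
    have hE : z.2 ^ 2 = z.1 ^ 3 + (RingHom.id F) a * z.1 + (RingHom.id F) b := eqn_of hzn
    have h1 : ∀ k, vv (phi a b (Φ k) (x i) (y i)) z.1 z.2 =
        (((z.1 - x i) ^ 3) ^ d) ^ ((k : ℕ) + 1) *
          Gv (Φ k) (Affine.Point.some (x i) (y i) (hn i) + Affine.Point.some z.1 z.2 hzn) := by
      intro k
      have h2 : vv (phi a b (Φ k) (x i) (y i)) z.1 z.2 =
          evQ (RingHom.id F) a b z.1 z.2 hE (phi a b (Φ k) (x i) (y i)) := by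
        rw [evQ_apply, vv, eval₂_id, eval₂_id]
      rw [h2, evQ_phi]
      have h3 := eval_TV (Φ k) (hΦ k) (hn i) hzn hxi
      simp only [RingHom.id_apply]
      rw [MvPolynomial.eval₂_id]
      rw [h3, Gv]
      congr 1
      rw [← pow_mul, ← pow_mul]
      congr 1
      ring
    unfold fS
    simp only [h1]
    rw [nf_scale _ _ _ (pow_ne_zero _ (pow_ne_zero _ (sub_ne_zero.2 hxi)))]
  rw [sum_Pt hD T]
  unfold TSS
  push_cast
  have e1 : (T Affine.Point.zero : ℝ) + ∑ z ∈ Sf (fE a b), (T (pz a b z) : ℝ) -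
      ∑ z ∈ Sf (fE a b), ∏ i, (nf (AlgebraicClosure F) (σ i)
        (pol (fun k => vv (phi a b (Φ k) (x i) (y i)) z.1 z.2)) : ℝ) =
      T Affine.Point.zero + ∑ z ∈ Sf (fE a b), ((T (pz a b z) : ℝ) - T' z) := by
    rw [sum_sub_distrib, hT']
    push_cast
    ring
  rw [e1]
  refine (abs_add_le _ _).trans ?_
  have h2 : |(T Affine.Point.zero : ℝ)| ≤ M := by
    rw [abs_of_nonneg (Nat.cast_nonneg _)]
    exact hTM _
  have h3 : |∑ z ∈ Sf (fE a b), ((T (pz a b z) : ℝ) - T' z)| ≤ 2 * m * M := by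
    refine (abs_sum_le_sum_abs _ _).trans ?_
    have h4 : ∀ z ∈ Sf (fE a b), |((T (pz a b z) : ℝ) - T' z)| ≤
        if z.1 ∈ univ.image x then M else 0 := by
      intro z hz
      split_ifs with hx
      · have := hTM (pz a b z)
        have := hT'M z
        have : (0 : ℝ) ≤ T (pz a b z) := Nat.cast_nonneg _
        have : (0 : ℝ) ≤ T' z := Nat.cast_nonneg _
        rw [abs_le]
        constructor <;> linarith
      · rw [key z hz hx, sub_self, abs_zero]
    refine (sum_le_sum h4).trans ?_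
    rw [← sum_filter, sum_const, nsmul_eq_mul]
    apply mul_le_mul_of_nonneg_right _ hM0
    have h5 := fib_card (Sf (fE a b)) (univ.image x) 2 (by
      intro x
      refine (card_le_card ?_).trans (sq_card_le ((fE a b).eval x))
      intro y hy
      simp only [Sf, mem_filter, mem_univ, true_and] at hy ⊢
      exact hy)
    have h6 : (univ.image x).card ≤ m := by
      refine card_image_le.trans ?_
      rw [card_univ, Fintype.card_fin]
    have h7 := h5.trans (Nat.mul_le_mul_left 2 h6)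
    exact_mod_cast h7
  linarith

end points

/-- **Four-fold correlations.** -/
theorem corr_S {n : ℕ} (hn2 : 2 ≤ n) (d D : ℕ) : ∃ C : ℝ, 0 ≤ C ∧
    ∀ (p : ℕ) [Fact p.Prime], p ≠ 2 → ∀ (a b : ZMod p), Disc a b →
    ∀ Φ : Fin n → MvPolynomial (Fin 3) (ZMod p), (∀ k, (Φ k).IsHomogeneous (((k : ℕ) + 1) * d)) →
    (DFm Φ).IsHomogeneous (n * (n - 1) * d) →
    (∀ k, ∀ x y : ZMod p, degQ (phi a b (Φ k) x y) D) →
    (∀ x y : ZMod p, degQ (phi a b (DFm Φ) x y) D) →
    ∀ (x₁ y₁ : ZMod p) (h₁ : (CV a b).toAffine.Nonsingular x₁ y₁),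
    (∀ g : (AlgebraicClosure (ZMod p))[X], g ^ 2 ≠
      (QuadraticAlgebra.norm (phi a b (DFm Φ) x₁ y₁)).map
        (algebraMap (ZMod p) (AlgebraicClosure (ZMod p)))) →
    Full1 _ _ (fun k => mapQ (algebraMap (ZMod p) (AlgebraicClosure (ZMod p))) a b _ _ rfl rfl
      (phi a b (Φ k) x₁ y₁)) →
    ∃ Bd : Finset (Pt a b), (Bd.card : ℝ) ≤ C ∧ ∀ (σ : Equiv.Perm (Fin n)) (h h' : Pt a b),
      h ∉ Bd → h' ∉ Bd → h + h' ∉ Bd → h - h' ∉ Bd →
      |∑ u : Pt a b, gS σ Φ u * gS σ Φ (u + h) * gS σ Φ (u + h') * gS σ Φ (u + (h + h'))| ≤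
        C * √p := by
  classical
  -- the constants
  have htow : ∀ e' : Fin 4 → Fin 2, ∃ C : ℝ, 0 ≤ C ∧
      ∀ (F : Type) [Field F] [Fintype F] [DecidableEq F], (2 : F) ≠ 0 →
      ∀ (σ : ∀ i, Equiv.Perm (Fin (EE n (e' i)))) (a b : F)
      (c : Fin 4 → Fin n → QA F a b), (∀ i k, degQ (c i k) D) →
      FullM _ _ (cK (AlgebraicClosure F) c) →
      |(TSS (AlgebraicClosure F) (fun i => EE n (e' i)) σ a b c : ℝ) - Fintype.card F| ≤
        C * √(Fintype.card F : ℝ) := by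
    intro e'
    apply towerS D (fun i => EE n (e' i))
    have h1 : ∀ t : Fin 2, EE n t ≤ n := by
      intro t
      fin_cases t
      · exact Nat.zero_le _
      · exact le_refl _
    exact ⟨fun i => Fin.castLEEmb (h1 (e' i))⟩
  choose Ct hCt0 hCt using htow
  set M : (Fin 4 → Fin 2) → ℝ := fun e' => ∏ i, (n : ℝ) ^ (EE n (e' i)) with hM
  set C1 : ℝ := ∑ e' : Fin 4 → Fin 2, (Ct e' + (2 * (4 : ℕ) + 1) * M e') with hC1
  have hM0 : ∀ e', 0 ≤ M e' := fun e' => by rw [hM]; positivity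
  have hC10 : 0 ≤ C1 := by
    rw [hC1]
    apply sum_nonneg
    intro e' _
    have := hCt0 e'
    have := hM0 e'
    positivity
  set Zc : ℕ := 2 * (1 + 2 * (1 + (2 * D + 3))) + 3 with hZc
  refine ⟨C1 + 2 * Zc, by positivity, ?_⟩
  intro p _ hp2 a b hD Φ hΦ hΦD hdeg hdegD x₁ y₁ h₁ hc hF
  have hn1 : 1 ≤ n := by omega
  have hnr : (1 : ℝ) ≤ n := by exact_mod_cast hn1
  set K := AlgebraicClosure (ZMod p) with hK
  set ι := algebraMap (ZMod p) K with hι
  have h2Z : (2 : ZMod p) ≠ 0 := by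
    unfold Disc at hD
    exact left_ne_zero_of_mul hD
  have h2K : (2 : K) ≠ 0 := by
    intro h
    apply h2Z
    apply ι.injective
    rw [map_ofNat, map_zero, h]
  have hs1 : (1 : ℝ) ≤ √p := by
    rw [Real.one_le_sqrt]
    exact_mod_cast (Fact.out : p.Prime).one_lt.le
  -- the exceptional translations
  set N := QuadraticAlgebra.norm (phi a b (DFm Φ) x₁ y₁) with hNdef
  have hNd : N.natDegree ≤ 2 * D + 3 := by
    have h1 := hdegD x₁ y₁
    rw [hNdef, normQ]
    refine (natDegree_sub_le _ _).trans (max_le ?_ ?_)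
    · refine natDegree_pow_le.trans ?_
      have := h1.1; omega
    · refine natDegree_mul_le.trans ?_
      rw [fE_natDegree]
      have := natDegree_pow_le (p := (phi a b (DFm Φ) x₁ y₁).im) (n := 2)
      have := h1.2; omega
  obtain ⟨hN0, x₀, hx₀⟩ := exists_mult (l := 2) (by norm_num) hc
  obtain ⟨Bd, hBd, hgood⟩ := norm_ne ι hD (DFm Φ) hΦD h₁ hN0 x₀
  rw [← hNdef] at hBd
  refine ⟨Bd ∪ Bd.image (fun v => -v), ?_, ?_⟩
  · have h1 : (Bd ∪ Bd.image (fun v => -v)).card ≤ 2 * Zc := by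
      refine (card_union_le _ _).trans ?_
      have := card_image_le (s := Bd) (f := fun v => -v)
      omega
    have h2 : ((Bd ∪ Bd.image (fun v => -v)).card : ℝ) ≤ 2 * Zc := by exact_mod_cast h1
    linarith
  intro σ h h' e1 e2 e3 e4
  have hsym : ∀ v, v ∉ Bd ∪ Bd.image (fun v => -v) → v ∉ Bd ∧ -v ∉ Bd := by
    intro v hv
    rw [mem_union, not_or] at hv
    refine ⟨hv.1, fun hc => hv.2 (mem_image.2 ⟨-v, hc, neg_neg v⟩)⟩
  obtain ⟨f1, f1'⟩ := hsym h e1
  obtain ⟨f2, f2'⟩ := hsym h' e2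
  obtain ⟨f3, f3'⟩ := hsym (h + h') e3
  obtain ⟨f4, f4'⟩ := hsym (h - h') e4
  set sh : Fin 4 → Pt a b := ![0, h, h', h + h'] with hsh
  have s0 : sh 0 = 0 := rfl
  have s1 : sh 1 = h := rfl
  have s2 : sh 2 = h' := rfl
  have s3 : sh 3 = h + h' := rfl
  have hdiff : ∀ i k, k ≠ i → sh k - sh i ∉ Bd := by
    intro i k hki
    fin_cases i <;> fin_cases k
    · exact absurd rfl hki
    · show h - 0 ∉ Bd
      rw [sub_zero]; exact f1
    · show h' - 0 ∉ Bd
      rw [sub_zero]; exact f2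
    · show h + h' - 0 ∉ Bd
      rw [sub_zero]; exact f3
    · show 0 - h ∉ Bd
      rw [zero_sub]; exact f1'
    · exact absurd rfl hki
    · show h' - h ∉ Bd
      rw [← neg_sub]; exact f4'
    · show h + h' - h ∉ Bd
      rw [add_sub_cancel_left]; exact f2
    · show 0 - h' ∉ Bd
      rw [zero_sub]; exact f2'
    · show h - h' ∉ Bd
      exact f4
    · exact absurd rfl hki
    · show h + h' - h' ∉ Bd
      rw [add_sub_cancel_right]; exact f1
    · show 0 - (h + h') ∉ Bd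
      rw [zero_sub]; exact f3'
    · show h - (h + h') ∉ Bd
      have e : h - (h + h') = -h' := by abel
      rw [e]; exact f2'
    · show h' - (h + h') ∉ Bd
      have e : h' - (h + h') = -h := by abel
      rw [e]; exact f1'
    · exact absurd rfl hki
  -- the translates
  have hpt : ∀ i, ∃ (x y : ZMod p) (hxy : (CV a b).toAffine.Nonsingular x y),
      (Affine.Point.some x y hxy : Pt a b) = Affine.Point.some x₁ y₁ h₁ + sh i := by
    intro i
    by_cases hi : i = 0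
    · subst hi
      exact ⟨x₁, y₁, h₁, by rw [s0, add_zero]⟩
    · have h3 := hdiff 0 i hi
      rw [s0, sub_zero] at h3
      obtain ⟨x₂, y₂, h₂, he, _⟩ := hgood (sh i) h3
      exact ⟨x₂, y₂, h₂, he.symm⟩
  choose x y hxy hPi using hpt
  obtain ⟨red, hred⟩ := baseChange ι a b (disc_map ι hD)
  obtain ⟨g₁, hg₁⟩ := hred x₁ y₁ h₁
  choose g hg using fun i => hred (x i) (y i) (hxy i)
  -- the forms over the closure
  set ΦK : Fin n → MvPolynomial (Fin 3) K := fun k => MvPolynomial.map ι (Φ k) with hΦK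
  have hΦKh : ∀ k, (ΦK k).IsHomogeneous (((k : ℕ) + 1) * d) := fun k => (hΦ k).map ι
  have hDK : DFm ΦK = MvPolynomial.map ι (DFm Φ) := (DFm_map (MvPolynomial.map ι) Φ).symm
  have hDKh : (DFm ΦK).IsHomogeneous (n * (n - 1) * d) := by rw [hDK]; exact hΦD.map ι
  have hnorm : ∀ x y : ZMod p, QuadraticAlgebra.norm (phi (ι a) (ι b) (DFm ΦK) (ι x) (ι y)) =
      (QuadraticAlgebra.norm (phi a b (DFm Φ) x y)).map ι := by
    intro x y
    rw [hDK, ← mapQ_phi ι a b (ι a) (ι b) rfl rfl, mapQ_norm]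
  have hF1 : Full1 (ι a) (ι b) (fun k => phi (ι a) (ι b) (ΦK k) (ι x₁) (ι y₁)) := by
    have h3 : (fun k => phi (ι a) (ι b) (ΦK k) (ι x₁) (ι y₁)) =
        fun k => mapQ ι a b _ _ rfl rfl (phi a b (Φ k) x₁ y₁) := by
      funext k
      rw [mapQ_phi]
    rw [h3]
    exact hF
  have hFi : ∀ i, Full1 (ι a) (ι b) (fun k => phi (ι a) (ι b) (ΦK k) (ι (x i)) (ι (y i))) :=
    fun i => full_transl (disc_map ι hD) ΦK hΦKh g₁ (g i) hF1
  have hfull : FullM (ι a) (ι b) (fun i k => phi (ι a) (ι b) (ΦK k) (ι (x i)) (ι (y i))) := by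
    apply full_of (ι a) (ι b) h2K
    · exact hFi
    · intro i
      apply place (disc_map ι hD) ΦK hΦKh hDKh (fun i => ι (x i)) (fun i => ι (y i)) g g₁ ?_ x₀ ?_ i
      · intro k hki
        obtain ⟨x₂, y₂, h₂, he, hne⟩ := hgood (sh k - sh i) (hdiff i k hki)
        obtain ⟨g₂, hg₂⟩ := hred x₂ y₂ h₂
        refine ⟨ι x₂, ι y₂, g₂, ?_, ?_⟩
        · rw [← hg₂, ← hg k, ← hg i, ← hg₁, ← he, hPi k, hPi i, ← map_sub, ← map_add]
          congr 1
          abel
        · rw [hnorm]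
          exact hne
      · rw [hnorm]
        exact hN0
      · rw [hnorm, ← Nat.not_even_iff_odd, even_iff_two_dvd]
        exact hx₀
  have hcK : cK K (fun i k => phi a b (Φ k) (x i) (y i)) =
      fun i k => phi (ι a) (ι b) (ΦK k) (ι (x i)) (ι (y i)) := by
    funext i k
    unfold cK
    rw [mapQ_phi]
  -- the sums
  set A : (Fin 4 → Fin 2) → ℕ := fun e' => ∑ u : Pt a b,
    ∏ i, fS (SS σ (e' i)) Φ (Affine.Point.some (x i) (y i) (hxy i) + u)
    with hA
  have hAb : ∀ e', |(A e' : ℝ) - p| ≤ (Ct e' + (2 * (4 : ℕ) + 1) * M e') * √p := by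
    intro e'
    have h3 := hCt e' (ZMod p) h2Z (fun i => SS σ (e' i)) a b (fun i k => phi a b (Φ k) (x i) (y i))
      (fun i k => hdeg k _ _) (by rw [hcK]; exact hfull)
    rw [ZMod.card] at h3
    have h4 := trans_sumS hD (fun i => EE n (e' i)) (fun i => SS σ (e' i)) Φ hΦ x y hxy
    have h5 : (A e' : ℝ) - p = ((A e' : ℝ) - TSS (AlgebraicClosure (ZMod p))
        (fun i => EE n (e' i)) (fun i => SS σ (e' i)) a b
        (fun i k => phi a b (Φ k) (x i) (y i))) + ((TSS (AlgebraicClosure (ZMod p))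
        (fun i => EE n (e' i)) (fun i => SS σ (e' i)) a b
        (fun i k => phi a b (Φ k) (x i) (y i)) : ℝ) - p) := by ring
    rw [h5]
    refine (abs_add_le _ _).trans ?_
    have h6 : (2 * (4 : ℕ) + 1) * M e' ≤ ((2 * (4 : ℕ) + 1) * M e') * √p :=
      le_mul_of_one_le_right (by have := hM0 e'; positivity) hs1
    have h7 := h4.trans h6
    rw [add_mul, add_comm (Ct e' * √(p : ℝ))]
    exact add_le_add h7 h3
  -- the expansion
  have hexp : ((n : ℝ) ^ n) ^ 4 * ∑ u : Pt a b, ∏ i, gS σ Φ (Affine.Point.some (x i) (y i) (hxy i) + u) =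
      ∑ e' : Fin 4 → Fin 2, (∏ i, kS (e' i)) * (A e' : ℝ) := by
    have h3 : ∀ u : Pt a b, ((n : ℝ) ^ n) ^ 4 * ∏ i, gS σ Φ (Affine.Point.some (x i) (y i) (hxy i) + u) =
        ∑ e' : Fin 4 → Fin 2, (∏ i, kS (e' i)) *
          (∏ i, (fS (SS σ (e' i)) Φ (Affine.Point.some (x i) (y i) (hxy i) + u) : ℝ)) := by
      intro u
      have h4 : ((n : ℝ) ^ n) ^ 4 * ∏ i, gS σ Φ (Affine.Point.some (x i) (y i) (hxy i) + u) =
          ∏ i, ((n : ℝ) ^ n * gS σ Φ (Affine.Point.some (x i) (y i) (hxy i) + u)) := by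
        rw [prod_mul_distrib, prod_const, card_univ, Fintype.card_fin]
      rw [h4, prod_congr rfl fun i _ => gS_exp hn1 σ Φ _, prod_univ_sum, Fintype.piFinset_univ]
      refine sum_congr rfl fun e' _ => ?_
      rw [prod_mul_distrib]
    rw [mul_sum, sum_congr rfl fun u _ => h3 u, sum_comm]
    refine sum_congr rfl fun e' _ => ?_
    rw [← mul_sum, hA]
    push_cast
    rfl
  have hkap : ∑ e' : Fin 4 → Fin 2, (∏ i, kS (e' i)) = 0 := by
    have h3 := prod_univ_sum (fun _ : Fin 4 => (univ : Finset (Fin 2))) (fun _ e => kS e)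
    rw [Fintype.piFinset_univ] at h3
    rw [← h3, prod_congr rfl fun i _ => kS_sum, prod_const, card_univ, Fintype.card_fin]
    norm_num
  have hbound : |∑ e' : Fin 4 → Fin 2, (∏ i, kS (e' i)) * (A e' : ℝ)| ≤ C1 * √p := by
    have h3 : ∑ e' : Fin 4 → Fin 2, (∏ i, kS (e' i)) * (A e' : ℝ) =
        ∑ e' : Fin 4 → Fin 2, (∏ i, kS (e' i)) * ((A e' : ℝ) - p) := by
      have h4 : ∀ e' : Fin 4 → Fin 2, (∏ i, kS (e' i)) * ((A e' : ℝ) - p) =
          (∏ i, kS (e' i)) * (A e' : ℝ) - (∏ i, kS (e' i)) * p := fun e' => by ring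
      rw [sum_congr rfl fun e' _ => h4 e', sum_sub_distrib, ← sum_mul, hkap, zero_mul, sub_zero]
    rw [h3, hC1, sum_mul]
    refine (abs_sum_le_sum_abs _ _).trans (sum_le_sum fun e' _ => ?_)
    rw [abs_mul]
    refine le_trans ?_ (hAb e')
    have h4 : |∏ i, kS (e' i)| ≤ 1 := by
      rw [abs_prod]
      exact prod_le_one (fun i _ => abs_nonneg _) fun i _ => kS_abs _
    exact mul_le_of_le_one_left (abs_nonneg _) h4
  -- conclusion
  have hsum : ∑ u : Pt a b, gS σ Φ u * gS σ Φ (u + h) * gS σ Φ (u + h') * gS σ Φ (u + (h + h')) =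
      ∑ u : Pt a b, ∏ i, gS σ Φ (Affine.Point.some (x i) (y i) (hxy i) + u) := by
    rw [← Equiv.sum_comp (Equiv.addRight (Affine.Point.some x₁ y₁ h₁ : Pt a b))]
    refine sum_congr rfl fun u _ => ?_
    rw [Fin.prod_univ_four, hPi, hPi, hPi, hPi, s0, s1, s2, s3]
    simp only [Equiv.coe_addRight]
    have t0 : (Affine.Point.some x₁ y₁ h₁ + 0 + u : Pt a b) = u + Affine.Point.some x₁ y₁ h₁ := by abel
    have t1 : (Affine.Point.some x₁ y₁ h₁ + h + u : Pt a b) = u + Affine.Point.some x₁ y₁ h₁ + h := by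
      abel
    have t2 : (Affine.Point.some x₁ y₁ h₁ + h' + u : Pt a b) =
      u + Affine.Point.some x₁ y₁ h₁ + h' := by abel
    have t3 : (Affine.Point.some x₁ y₁ h₁ + (h + h') + u : Pt a b) =
      u + Affine.Point.some x₁ y₁ h₁ + (h + h') := by abel
    rw [t0, t1, t2, t3]
  rw [hsum]
  rw [← hexp] at hbound
  rw [abs_mul, abs_of_nonneg (by positivity : (0 : ℝ) ≤ ((n : ℝ) ^ n) ^ 4)] at hbound
  have hn8 : (1 : ℝ) ≤ ((n : ℝ) ^ n) ^ 4 := one_le_pow₀ (one_le_pow₀ hnr)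
  have h9 : |∑ u : Pt a b, ∏ i, gS σ Φ (Affine.Point.some (x i) (y i) (hxy i) + u)| ≤
      ((n : ℝ) ^ n) ^ 4 * |∑ u : Pt a b, ∏ i, gS σ Φ (Affine.Point.some (x i) (y i) (hxy i) + u)| :=
    le_mul_of_one_le_left (abs_nonneg _) hn8
  refine (h9.trans hbound).trans ?_
  apply mul_le_mul_of_nonneg_right _ (by positivity)
  have : (0 : ℝ) ≤ 2 * Zc := by positivity
  linarith

end Pool.Agent.K9h5.U
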