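import Mathlib

/-!
# Subgroups meeting all conjugacy classes
-/

set_option autoImplicit false
set_option linter.all false

namespace Pool.Agent.K9h5.U

open Finset

/-- a subgroup of a finite group which meets all conjugacy classes is the whole group -/
theorem top_of_conj {G : Type} [Group G] [Finite G] (H : Subgroup G)
    (h : ∀ g : G, ∃ x : G, x⁻¹ * g * x ∈ H) : H = ⊤ := by
  classical
  haveI : Fintype G := Fintype.ofFinite G
  haveI : Fintype (G ⧸ H) := Fintype.ofFinite _
  haveI : ∀ a : G, Fintype (MulAction.fixedBy (G ⧸ H) a) := fun a => Fintype.ofFinite _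
  haveI : Fintype (Quotient (MulAction.orbitRel G (G ⧸ H))) := Fintype.ofFinite _
  have h1 := MulAction.sum_card_fixedBy_eq_card_orbits_mul_card_group G (G ⧸ H)
  have h2 : Fintype.card (Quotient (MulAction.orbitRel G (G ⧸ H))) = 1 := by
    rw [Fintype.card_eq_one_iff_nonempty_unique]
    refine ⟨⟨⟨Quotient.mk _ ((1 : G) : G ⧸ H)⟩, ?_⟩⟩
    intro z
    obtain ⟨z, rfl⟩ := Quotient.exists_rep z
    apply Quotient.sound
    exact MulAction.exists_smul_eq G _ _
  rw [h2, one_mul] at h1
  have h3 : ∀ g : G, 1 ≤ Fintype.card (MulAction.fixedBy (G ⧸ H) g) := by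
    intro g
    obtain ⟨x, hx⟩ := h g
    rw [Nat.one_le_iff_ne_zero, Ne, Fintype.card_eq_zero_iff, not_isEmpty_iff]
    refine ⟨⟨(x : G ⧸ H), ?_⟩⟩
    rw [MulAction.mem_fixedBy, MulAction.Quotient.smul_coe, smul_eq_mul, eq_comm, QuotientGroup.eq,
      ← mul_assoc]
    exact hx
  have h4 : Fintype.card (MulAction.fixedBy (G ⧸ H) (1 : G)) = Fintype.card (G ⧸ H) := by
    apply Fintype.card_congr
    refine ⟨fun z => z.1, fun z => ⟨z, by rw [MulAction.mem_fixedBy, one_smul]⟩, fun z => rfl,
      fun z => rfl⟩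
  have h5 : Fintype.card (G ⧸ H) + (Fintype.card G - 1) ≤ Fintype.card G := by
    rw [← add_sum_erase univ _ (mem_univ (1 : G)), h4] at h1
    have h6 : ∑ g ∈ univ.erase (1 : G), 1 ≤
        ∑ g ∈ univ.erase (1 : G), Fintype.card (MulAction.fixedBy (G ⧸ H) g) :=
      sum_le_sum fun g _ => h3 g
    rw [sum_const, smul_eq_mul, mul_one, card_erase_of_mem (mem_univ _), card_univ] at h6
    omega
  have h6 : 0 < Fintype.card G := Fintype.card_pos
  have h7 : Fintype.card (G ⧸ H) = 1 := by
    have : 0 < Fintype.card (G ⧸ H) := Fintype.card_pos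
    omega
  rw [← Subgroup.index_eq_one, Subgroup.index, Nat.card_eq_fintype_card, h7]

end Pool.Agent.K9h5.U
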