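import Mathlib
import Pool.Agent.K9h5.U.Frob
import Pool.Agent.K9h5.U.Grp
import Pool.Agent.K9h5.U.Cor
import Pool.Agent.K9h5.T.Locn

/-!
# The Galois group of the specialized polynomial
-/

set_option autoImplicit false
set_option linter.all false

namespace Pool.Agent.K9h5.U

open Polynomial Finset Pool.Agent.K9h5 Pool.Agent.K9h5.T Pool.Agent.H901R3.MS WeierstrassCurve
  NumberField

/-- the Galois group contains an element which permutes the roots like `σ` -/
def TypeP {n : ℕ} (g : ℚ[X]) (σ : Equiv.Perm (Fin n)) : Prop :=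
  ∃ (w : Fin n → g.SplittingField) (τ : g.SplittingField ≃+* g.SplittingField),
    Function.Injective w ∧ (∀ j, g.eval₂ (Rat.castHom g.SplittingField) (w j) = 0) ∧
    ∀ j, τ (w j) = w (σ j)

theorem alg_rat {L : Type} [Field L] (i : Algebra ℚ L) [CharZero L] :
    i = DivisionRing.toRatAlgebra := Subsingleton.elim _ _

theorem algMap_rat {L : Type} [Field L] [CharZero L] (i : Algebra ℚ L) :
    @algebraMap ℚ L _ _ i = Rat.castHom L := Subsingleton.elim _ _

theorem exists_gal (g : ℚ[X]) (τ : g.SplittingField ≃+* g.SplittingField) :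
    ∃ t : g.Gal, ∀ x, t x = τ x := by
  have h : ∀ r : ℚ, τ (@algebraMap ℚ g.SplittingField _ _ (SplittingField.instAlgebra_1 g) r) =
      @algebraMap ℚ g.SplittingField _ _ (SplittingField.instAlgebra_1 g) r := by
    intro r
    rw [algMap_rat]
    simp
  exact ⟨@AlgEquiv.ofRingEquiv ℚ _ _ _ _ _ (SplittingField.instAlgebra_1 g)
    (SplittingField.instAlgebra_1 g) τ h, fun x => rfl⟩

theorem sf_split (g : ℚ[X]) : IsSplittingField ℚ g.SplittingField g := by
  have h := IsSplittingField.splittingField g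
  rw [alg_rat (SplittingField.instAlgebra_1 g)] at h
  exact h

theorem sf_roots (g : ℚ[X]) (x : g.SplittingField) (hg : g ≠ 0) (i : Algebra ℚ g.SplittingField) :
    x ∈ @rootSet ℚ _ g g.SplittingField _ _ i ↔ g.eval₂ (Rat.castHom g.SplittingField) x = 0 := by
  obtain rfl := alg_rat i
  rw [mem_rootSet, aeval_def, algMap_rat]
  exact ⟨fun h => h.2, fun h => ⟨hg, h⟩⟩

theorem gal_root (g : ℚ[X]) (τ : g.Gal) (x : g.SplittingField)
    (h : g.eval₂ (Rat.castHom g.SplittingField) x = 0) :
    g.eval₂ (Rat.castHom g.SplittingField) (τ x) = 0 := by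
  have h1 := hom_eval₂ g (Rat.castHom g.SplittingField)
    (MulSemiringAction.toRingHom g.Gal g.SplittingField τ) x
  rw [h, map_zero] at h1
  rw [h1]
  congr 1
  exact Subsingleton.elim _ _

/-- denominators of the elements of a place of `ℚ` -/
theorem den_place (p : ℕ) [Fact p.Prime] (v : Place ℚ (ZMod p)) (c : ℚ) (hc : c ∈ v.A) :
    ¬ p ∣ c.den := by
  intro h
  have h1 : v.r (c * (c.den : ℚ)) = 0 := by
    rw [v.r_mul hc (v.nat_mem _), v.r_nat]
    have : ((c.den : ℕ) : ZMod p) = 0 := (ZMod.natCast_eq_zero_iff _ _).2 h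
    rw [this, mul_zero]
  rw [Rat.mul_den_eq_num, v.r_int, ZMod.intCast_zmod_eq_zero_iff_dvd] at h1
  have h2 : p ∣ c.num.natAbs := by
    have := Int.natAbs_dvd_natAbs.2 h1
    rwa [Int.natAbs_natCast] at this
  have h3 := Nat.dvd_gcd h2 h
  rw [c.reduced] at h3
  exact (Fact.out : p.Prime).one_lt.ne' (Nat.dvd_one.1 h3)

/-- a common denominator -/
theorem common_den (p : ℕ) [Fact p.Prime] (v : Place ℚ (ZMod p)) {n : ℕ} (c : Fin n → ℚ)
    (hc : ∀ k, c k ∈ v.A) : ∃ (D : ℕ) (z : Fin n → ℤ), (D : ZMod p) ≠ 0 ∧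
      (∀ k : Fin n, (z k : ℚ) = (D : ℚ) ^ ((k : ℕ) + 1) * c k) ∧
      ∀ k : Fin n, (z k : ZMod p) = (D : ZMod p) ^ ((k : ℕ) + 1) * v.r (c k) := by
  classical
  set D : ℕ := ∏ k, (c k).den with hD
  have hDp : (D : ZMod p) ≠ 0 := by
    rw [Ne, ZMod.natCast_eq_zero_iff, hD]
    rw [Prime.dvd_finset_prod_iff (Nat.prime_iff.1 (Fact.out : p.Prime))]
    rintro ⟨k, _, hk⟩
    exact den_place p v (c k) (hc k) hk
  have h1 : ∀ k : Fin n, ∃ z : ℤ, (z : ℚ) = (D : ℚ) ^ ((k : ℕ) + 1) * c k := by
    intro k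
    obtain ⟨e, he⟩ : (c k).den ∣ D := dvd_prod_of_mem (fun k => (c k).den) (mem_univ k)
    refine ⟨(D : ℤ) ^ (k : ℕ) * (e * (c k).num), ?_⟩
    push_cast
    rw [pow_succ, mul_assoc]
    congr 1
    have h2 : (D : ℚ) = (c k).den * e := by
      rw [he]; push_cast; ring
    rw [h2, mul_comm ((c k).den : ℚ) e, mul_assoc, mul_comm ((c k).den : ℚ) (c k),
      Rat.mul_den_eq_num]
  choose z hz using h1
  refine ⟨D, z, hDp, hz, ?_⟩
  intro k
  have h2 := congrArg v.r (hz k)
  rw [v.r_int, v.r_mul (v.A.pow_mem (v.nat_mem D) _) (hc k), v.r_pow (v.nat_mem D), v.r_nat] at h2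
  exact h2

/-- **The local condition.** -/
theorem lift_S {r n : ℕ} (a b : Fin r → ℤ) (F : Fin n → MvPolynomial (Fin r × Fin 3) ℤ)
    (j : Fin r) (d : Fin r → ℕ)
    (hF : ∀ k i, (F k).IsWeightedHomogeneous (wtj i) (((k : ℕ) + 1) * d i))
    (p : ℕ) [Fact p.Prime] (hD : ∀ i, Disc (a i : ZMod p) (b i : ZMod p))
    (P : ∀ i, Pt (a i : ℚ) (b i : ℚ)) (σ : Equiv.Perm (Fin n))
    (hσ : ¬ TypeP (pol (fun k => evF (F k) (fun i => rep (P i)))) σ) :
    fS σ (fun k => Fm a b (F k) j p (fun i => rd p (a i) (b i) (P i)))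
      (rd p (a j) (b j) (P j)) = 0 := by
  classical
  by_contra hne
  apply hσ
  choose u hu0 huA using fun i => (rd_spec p (a i) (b i) (hD i)).2.2 (P i)
  set s : ℚ := ∏ i, u i ^ d i with hs
  have hs0 : s ≠ 0 := by
    rw [hs]
    exact prod_ne_zero_iff.2 fun i _ => pow_ne_zero _ (hu0 i)
  set c : Fin n → ℚ := fun k => evF (F k) (fun i => rep (P i)) with hc
  have h1 : ∀ k : Fin n, evF (F k) (fun i k => u i * rep (P i) k) = s ^ ((k : ℕ) + 1) * c k := by
    intro k
    rw [evF_scale (F k) (fun i => ((k : ℕ) + 1) * d i) (hF k) u (fun i => rep (P i)), hs,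
      ← prod_pow]
    congr 1
    refine prod_congr rfl fun i _ => ?_
    rw [← pow_mul, mul_comm]
  have h2 : ∀ k : Fin n, s ^ ((k : ℕ) + 1) * c k ∈ (vp p).A := fun k => by
    rw [← h1]
    exact (evF_place (vp p) (F k) (fun i k => u i * rep (P i) k) (fun i k => (huA i k).1)).1
  have h3 : ∀ k : Fin n, (vp p).r (s ^ ((k : ℕ) + 1) * c k) =
      Gv (Fm a b (F k) j p (fun i => rd p (a i) (b i) (P i))) (rd p (a j) (b j) (P j)) := by
    intro k
    rw [← h1, (evF_place (vp p) (F k) (fun i k => u i * rep (P i) k) (fun i k => (huA i k).1)).2]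
    unfold Gv Fm
    rw [← MvPolynomial.eval₂_id, specF_eval]
    congr 1
    funext i k
    rw [(huA i k).2]
    split_ifs with hi
    · subst hi; rfl
    · rfl
  obtain ⟨D, z, hDp, hz, hzp⟩ := common_den p (vp p) _ h2
  have hD0 : (D : ℚ) ≠ 0 := by
    intro h
    apply hDp
    have h4 : D = 0 := by exact_mod_cast h
    rw [h4, Nat.cast_zero]
  -- the integral polynomial
  set g : ℤ[X] := pol z with hg
  have hgp : g.map (Int.castRingHom (ZMod p)) = pol (fun k : Fin n => (D : ZMod p) ^ ((k : ℕ) + 1) *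
      Gv (Fm a b (F k) j p (fun i => rd p (a i) (b i) (P i))) (rd p (a j) (b j) (P j))) := by
    rw [hg, pol_map]
    congr 1
    funext k
    rw [eq_intCast, hzp, h3]
  have hnf : nf (AlgebraicClosure (ZMod p)) σ (g.map (Int.castRingHom (ZMod p))) ≠ 0 := by
    rw [hgp, nf_scale _ _ _ hDp]
    exact hne
  -- the splitting field
  set G : ℚ[X] := pol c with hG
  haveI hspl : IsSplittingField ℚ G.SplittingField G := sf_split G
  haveI : NumberField G.SplittingField :=
    { to_charZero := inferInstance,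
      to_finiteDimensional := IsSplittingField.finiteDimensional G.SplittingField G }
  haveI : Normal ℚ G.SplittingField := Normal.of_isSplittingField G
  haveI : IsGalois ℚ G.SplittingField := ⟨⟩
  have hsp : (G.map (algebraMap ℚ G.SplittingField)).Splits :=
    IsSplittingField.splits G.SplittingField G
  obtain ⟨w, hw⟩ : ∃ w : Fin n → G.SplittingField, G.map (algebraMap ℚ G.SplittingField) =
      ∏ j, (X - C (w j)) := by
    have e1 := hsp.eq_prod_roots_of_monic ((pol_monic c).map _)
    have e2 : (G.map (algebraMap ℚ G.SplittingField)).roots.card = n := by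
      rw [← hsp.natDegree_eq_card_roots, (pol_monic c).natDegree_map, pol_natDegree]
    obtain ⟨l, hl⟩ := Quot.exists_rep (G.map (algebraMap ℚ G.SplittingField)).roots
    have hl' : l.length = n := by rw [← e2, ← hl]; rfl
    refine ⟨fun j => l.get (j.cast hl'.symm), ?_⟩
    have e3 : (Multiset.map (fun a => X - C a) (G.map (algebraMap ℚ G.SplittingField)).roots).prod =
        (l.map (fun a => X - C a)).prod := by
      rw [← hl]
      rfl
    rw [e3] at e1
    conv_lhs => rw [e1]
    rw [← List.prod_ofFn]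
    congr 1
    apply List.ext_getElem
    · simp [hl']
    · intro i h1 h2
      simp
  set ι := algebraMap ℚ G.SplittingField with hι
  have hDs : ι (D * s) ≠ 0 := by
    rw [Ne, map_eq_zero_iff _ ι.injective]
    exact mul_ne_zero hD0 hs0
  have hgL : g.map (algebraMap ℤ G.SplittingField) = ∏ j, (X - C (ι (D * s) * w j)) := by
    have e1 : pol (fun k => ι (c k)) = ∏ j, (X - C (w j)) := by
      refine Eq.trans ?_ hw
      exact (pol_map _ _).symm
    rw [← scale_split _ _ _ hDs e1, hg, pol_map]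
    congr 1
    funext k
    have e2 : algebraMap ℤ G.SplittingField (z k) = ι (z k) := by
      rw [eq_intCast, map_intCast]
    rw [e2, hz, ← map_pow, ← map_mul, mul_pow]
    congr 1
    ring
  obtain ⟨w', τ, hw'i, hw'w, hτ⟩ := frob_lift g (pol_monic z) n p σ hnf G.SplittingField _ hgL
  refine ⟨fun j => (ι (D * s))⁻¹ * w' j, τ.toRingEquiv, ?_, ?_, ?_⟩
  · intro j j' h
    exact hw'i (mul_left_cancel₀ (inv_ne_zero hDs) h)
  · intro j
    obtain ⟨k, hk⟩ := hw'w j
    simp only
    rw [hk, ← mul_assoc, inv_mul_cancel₀ hDs, one_mul, ← eval_map,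
      ← algMap_rat (inferInstance : Algebra ℚ G.SplittingField)]
    refine Eq.trans (congrArg (eval (w k)) hw) ?_
    rw [eval_prod, prod_eq_zero (mem_univ k)]
    simp
  · intro j
    simp only
    rw [map_mul]
    have e1 : τ.toRingEquiv (ι (D * s))⁻¹ = (ι (D * s))⁻¹ := by
      rw [map_inv₀]
      congr 1
      exact τ.commutes _
    have e2 : τ.toRingEquiv (w' j) = w' (σ j) := hτ j
    rw [e1, e2]

/-- **All types of permutations give the symmetric group.** -/
theorem gal_of_types {n : ℕ} (g : ℚ[X]) (hg : g.Monic) (hn : g.natDegree = n)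
    (h : ∀ σ : Equiv.Perm (Fin n), TypeP g σ) : Nat.card g.Gal = Nat.factorial n := by
  classical
  obtain ⟨w, -, hwi, hwr, -⟩ := h 1
  have hg0 : g ≠ 0 := hg.ne_zero
  -- all the roots
  have hall : ∀ z : g.SplittingField, g.eval₂ (Rat.castHom g.SplittingField) z = 0 →
      ∃ j, w j = z := by
    intro z hz
    have h1 : (univ.image w) ⊆ (g.map (Rat.castHom g.SplittingField)).roots.toFinset := by
      intro y hy
      obtain ⟨j, _, rfl⟩ := mem_image.1 hy
      rw [Multiset.mem_toFinset, mem_roots ((hg.map _).ne_zero), IsRoot.def, eval_map]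
      exact hwr j
    have h2 : (g.map (Rat.castHom g.SplittingField)).roots.toFinset.card ≤ (univ.image w).card := by
      rw [card_image_of_injective _ hwi, card_univ, Fintype.card_fin]
      refine (Multiset.toFinset_card_le _).trans ((card_roots' _).trans ?_)
      rw [hg.natDegree_map, hn]
    have h3 := eq_of_subset_of_card_le h1 h2
    have h4 : z ∈ univ.image w := by
      rw [h3, Multiset.mem_toFinset, mem_roots ((hg.map _).ne_zero), IsRoot.def, eval_map]
      exact hz
    obtain ⟨j, _, hj⟩ := mem_image.1 h4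
    exact ⟨j, hj⟩
  have hact : ∀ (τ : g.Gal) (j : Fin n), ∃ k, w k = τ (w j) := by
    intro τ j
    exact hall _ (gal_root g τ _ (hwr j))
  choose θ hθ using hact
  -- the homomorphism
  have hθ1 : ∀ τ τ' j, θ (τ * τ') j = θ τ (θ τ' j) := by
    intro τ τ' j
    apply hwi
    rw [hθ, hθ, hθ]
    rfl
  have hθ0 : ∀ j, θ 1 j = j := by
    intro j
    apply hwi
    rw [hθ]
    rfl
  let f : g.Gal →* Equiv.Perm (Fin n) :=
    { toFun := fun τ => ⟨θ τ, θ τ⁻¹, fun j => by rw [← hθ1, inv_mul_cancel, hθ0],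
        fun j => by rw [← hθ1, mul_inv_cancel, hθ0]⟩
      map_one' := Equiv.ext fun j => hθ0 j
      map_mul' := fun τ τ' => Equiv.ext fun j => hθ1 τ τ' j }
  have hf : ∀ τ j, w (f τ j) = τ (w j) := fun τ j => hθ τ j
  have hfi : Function.Injective f := by
    intro τ τ' h1
    apply Gal.ext
    intro x hx
    obtain ⟨j, rfl⟩ := hall x ((sf_roots g x hg0 _).1 hx)
    have h2 := hf τ j
    rw [h1, hf] at h2
    exact h2.symm
  have hft : f.range = ⊤ := by
    apply top_of_conj
    intro σ
    obtain ⟨w', τ, hw'i, hw'r, hτ⟩ := h σ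
    choose κ hκ using fun j => hall (w' j) (hw'r j)
    have hκi : Function.Injective κ := by
      intro j j' h1
      apply hw'i
      rw [← hκ, ← hκ, h1]
    set x : Equiv.Perm (Fin n) := Equiv.ofBijective κ (Finite.injective_iff_bijective.1 hκi) with hx
    obtain ⟨t, ht⟩ := exists_gal g τ
    refine ⟨x⁻¹, ?_⟩
    rw [inv_inv, MonoidHom.mem_range]
    refine ⟨t, ?_⟩
    have h1 : f t * x = x * σ := by
      apply Equiv.ext
      intro j
      rw [Equiv.Perm.mul_apply, Equiv.Perm.mul_apply]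
      apply hwi
      rw [hf, ht]
      show τ (w (κ j)) = w (κ (σ j))
      rw [hκ, hκ, hτ]
    rw [← h1, mul_assoc, mul_inv_cancel, mul_one]
  have hbij : Function.Bijective f := ⟨hfi, MonoidHom.range_eq_top.1 hft⟩
  have h1 := Nat.card_congr (Equiv.ofBijective f hbij)
  rw [Nat.card_eq_fintype_card (α := Equiv.Perm (Fin n)), Fintype.card_perm, Fintype.card_fin] at h1
  exact h1

end Pool.Agent.K9h5.U
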